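import Pool.Agent.H891.RH.Kod

/-! The local estimate for products of twisted sections on the images of a multivalued map. -/

set_option autoImplicit false
set_option linter.overlappingInstances false
set_option linter.unusedSectionVars false

open FF IntermediateField Pool.Agent.W619.PQ Pool.Agent.W619.PL Pool.Agent.W619.TW
  Pool.Agent.W603.LV Pool.Agent.W619.Y Pool.Agent.Y174 Pool.Agent.W824.PG Pool.Agent.H891.RH

namespace Pool.Agent.H891.RB

section

variable {k L : Type} [Field k] [Field L] [Algebra k L] [CharZero k]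

/-- Local coordinates for a rational map at a place, for all twisted sections. -/
theorem loc_frame (M : IntermediateField k L) [Algebra.EssFiniteType k M] {n y : ℕ}
    (hn : Algebra.trdeg k L = n) (hy : Algebra.trdeg k M = y) (δM : Place k M → ℝ)
    {t : Fin y → M} (ht : IsTranscendenceBasis k t) {F : Fin y → Derivation k M M}
    (hF : ∀ i j, F i (t j) = if i = j then 1 else 0) {w : Place k L} (hw : IsDivisorial w n) :
    ∃ (t' : Fin y → M) (F' : Fin y → Derivation k M M) (b : Fin y → ℕ) (a : ℝ),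
      IsPullMult M δM w a ∧ IsTranscendenceBasis k t' ∧
      (∀ i j, F' i (t' j) = if i = j then 1 else 0) ∧
      (∀ l, Ge w (b l) (t' l : L)) ∧
      ∀ (m j : ℕ) (S : Finset M) (η : (Fin y → Derivation k M M) → M), (1 : M) ∈ S →
        PairSec k M y δM S m j η → η F' = 0 ∨ ∃ s ∈ S, s ≠ 0 ∧
          (j : ℝ) * w.ord (s : L) - m * a ≤ m * ((∑ l, (b l - 1) : ℕ) : ℝ) + w.ord (η F' : L) := by
  classical
  by_cases htriv : ∀ z ∈ M, z ≠ 0 → w.ord z = 0
  · refine ⟨t, F, fun _ => 0, 0, Or.inr ⟨htriv, rfl⟩, ht, hF, fun l => ?_, fun m j S η h1S hη => ?_⟩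
    · by_cases h0 : (t l : L) = 0
      · exact Or.inl h0
      · right
        rw [htriv _ (t l).2 h0]
        rfl
    · by_cases h0 : η F = 0
      · exact Or.inl h0
      · right
        refine ⟨1, h1S, one_ne_zero, ?_⟩
        have h1 : w.ord (η F : L) = 0 := htriv _ (η F).2 fun h => h0 (Subtype.ext h)
        have h2 : w.ord ((1 : M) : L) = 0 := w.ord_one
        rw [h1, h2]
        simp
  · push Not at htriv
    obtain ⟨z, hz, hz0, hzw⟩ := htriv
    obtain ⟨e, u, hu⟩ := exists_over (K := M) w ⟨⟨z, hz⟩, hzw⟩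
    have hud : IsDivisorial u y := Pool.Agent.W619.Y.pDIVR k M L y n u w e hy hn hu hw
    obtain ⟨t', F', i0, ht', hF', hti, htr, hpres⟩ := Pool.Agent.W619.Y.pFRAME k M y hy
      (fun y hy => fin_adj inferInstance y hy) u hud
    refine ⟨t', F', fun l => if l = i0 then e else 0, 1 - e * (1 - δM u),
      Or.inl ⟨u, e, hu, rfl⟩, ht', hF', fun l => ?_, fun m j S η h1S hη => ?_⟩
    · show Ge w ((if l = i0 then e else 0 : ℕ) : ℤ) (t' l : L)
      split_ifs with hl
      · right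
        rw [hl]
        have h1 := hu.2 (t' i0)
        rw [hti, mul_one] at h1
        exact h1.ge
      · exact hu.reg.2 (htr l)
    · rcases hη.2 u hud F' (fun l f hf => hpres l f hf) with h | ⟨s, hs, hs0, h⟩
      · exact Or.inl h
      · right
        refine ⟨s, hs, hs0, ?_⟩
        have h1 : (∑ l, ((if l = i0 then e else 0) - 1) : ℕ) = e - 1 := by
          rw [Finset.sum_eq_single i0]
          · rw [if_pos rfl]
          · intro l _ hl
            rw [if_neg hl]
            exact Nat.zero_sub 1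
          · intro h
            exact (h (Finset.mem_univ _)).elim
        rw [h1]
        have h2 : w.ord (η F' : L) = e * u.ord (η F') := hu.2 _
        have h2' : w.ord (s : L) = e * u.ord s := hu.2 _
        rw [h2, h2']
        have he := hu.1
        have h3 : ((e - 1 : ℕ) : ℝ) = e - 1 := by
          rw [Nat.cast_sub he, Nat.cast_one]
        rw [h3]
        push_cast
        have h5 := mul_le_mul_of_nonneg_left h (Nat.cast_nonneg (α := ℝ) e)
        linarith

end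

section

variable {k K : Type} [Field k] [Field K] [Algebra k K] [CharZero k]
  {L : IntermediateField K (AlgebraicClosure K)} {r n N D : ℕ} {c y : Fin r → ℕ}
  {Y : Fin r → IntermediateField k L} [FiniteDimensional K L] [IsGalois K L]

open scoped Classical in
/-- **The local estimate.** -/
theorem loc_est (hn : Algebra.trdeg k K = n) [∀ j, Algebra.EssFiniteType k (Y j)]
    (hy : ∀ j, Algebra.trdeg k (Y j) = y j) {δ : Place k K → ℝ} {δY : ∀ j, Place k (Y j) → ℝ}
    {d' : ℕ} (hram : RamBound n L δ Y δY c d') (hN : N = d' * Nat.card (L ≃ₐ[K] L) * D)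
    (X : Fin N → Cps L c D → k) (e : Row L c y D ≃ Fin n × Fin N)
    {t : ∀ j, Fin (y j) → Y j} (ht : ∀ j, IsTranscendenceBasis k (t j))
    {F : ∀ j, Fin (y j) → Derivation k (Y j) (Y j)}
    (hF : ∀ j l l', F j l (t j l') = if l = l' then 1 else 0) {T b : ℕ} {S : ∀ j, Finset (Y j)}
    (hS : ∀ j, (1 : Y j) ∈ S j)
    {η : ∀ a : Cps L c D, (Fin (y a.1.1) → Derivation k (Y a.1.1) (Y a.1.1)) → Y a.1.1}
    (hη : ∀ a : Cps L c D, PairSec k (Y a.1.1) (y a.1.1) (δY a.1.1) (S a.1.1) T b (η a))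
    {v : Place k K} (hv : IsDivisorial v n) {w : Place k L} {a₀ : ℕ} (hov : Over w v a₀)
    {z₀ : Fin n → K} {E : Fin n → Derivation k K K} {i0 : Fin n}
    (hE : ∀ i j, E i (z₀ j) = if i = j then 1 else 0) (hz : v.ord (z₀ i0) = 1)
    (hpres : ∀ i, Pres v (E i)) {H : Fin n → Derivation k L L}
    (hH : ∀ i (x : K), H i (algebraMap K L x) = algebraMap K L (E i x)) :
    (MM X e (fun q => t q.1) H).det ^ T * ∏ a : Cps L c D, a.1.2 (η a (F a.1.1) : L) = 0 ∨
      ∃ s : ∀ a : Cps L c D, Y a.1.1, (∀ a, s a ∈ S a.1.1 ∧ s a ≠ 0) ∧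
        (b : ℝ) * w.ord (∏ a : Cps L c D, a.1.2 (s a : L)) - T * N * a₀ * δ v ≤
          w.ord ((MM X e (fun q => t q.1) H).det ^ T *
            ∏ a : Cps L c D, a.1.2 (η a (F a.1.1) : L)) := by
  classical
  have hnL : Algebra.trdeg k L = n := by
    have h1 := trdeg_add_eq k K (A := L)
    rw [hn, trdeg_eq_zero (R := K), add_zero] at h1
    exact h1.symm
  have hw : IsDivisorial w n := div_up hv hov
  -- the local frames
  choose t' F' β a hmul ht' hF' hb hη' using fun q : Fin r × (L ≃ₐ[K] L) =>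
    loc_frame (Y q.1) hnL (hy q.1) (δY q.1) (ht q.1) (hF q.1)
      (div_comp hw (q.2.restrictScalars k))
  have hV : (MM X e (fun q => t q.1) H).det ^ T *
      ∏ a : Cps L c D, a.1.2 (η a (F a.1.1) : L) =
      (MM X e t' H).det ^ T * ∏ a : Cps L c D, a.1.2 (η a (F' a.1) : L) := by
    rw [det_change X e (fun q => t q.1) t' ht' F' hF' H]
    have h1 : (∏ q : Fin r × (L ≃ₐ[K] L),
        q.2 ((PM (q := q) (t q.1) (F' q)).det : L) ^ (D * c q.1)) =
        ∏ a : Cps L c D, a.1.2 ((PM (q := a.1) (t a.1.1) (F' a.1)).det : L) := by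
      rw [Fintype.prod_sigma]
      refine Finset.prod_congr rfl fun q _ => ?_
      show _ = ∏ _x : Fin (D * c q.1), q.2 ((PM (q := q) (t q.1) (F' q)).det : L)
      rw [Finset.prod_const, Finset.card_univ, Fintype.card_fin]
    rw [h1, mul_pow, ← Finset.prod_pow, mul_comm (∏ a, _) ((MM X e t' H).det ^ T), mul_assoc,
      ← Finset.prod_mul_distrib]
    congr 1
    refine Finset.prod_congr rfl fun a _ => ?_
    rw [form_PM (q := a.1) (hη a).1 (ht a.1.1) (hF a.1.1) (F' a.1)]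
    show _ = a.1.2 (algebraMap (Y a.1.1) L ((PM (q := a.1) (t a.1.1) (F' a.1)).det ^ T *
      η a (F a.1.1)))
    rw [map_mul, map_mul, map_pow, map_pow]
    rfl
  rw [hV]
  by_cases h0 : (MM X e t' H).det ^ T * ∏ a : Cps L c D, a.1.2 (η a (F' a.1) : L) = 0
  · exact Or.inl h0
  right
  have h01 : (MM X e t' H).det ^ T ≠ 0 := left_ne_zero_of_mul h0
  have h02 : ∏ a : Cps L c D, a.1.2 (η a (F' a.1) : L) ≠ 0 := right_ne_zero_of_mul h0
  have h03 : ∀ a : Cps L c D, a.1.2 (η a (F' a.1) : L) ≠ 0 := fun a =>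
    Finset.prod_ne_zero_iff.1 h02 a (Finset.mem_univ _)
  -- the determinant
  let α : Row L c y D → ℤ := fun ρ => ((β ρ.1.1 ρ.2 - 1 : ℕ) : ℤ)
  let γ : Row L c y D → ℤ := fun ρ' => if (e ρ').1 = i0 then 1 - (a₀ : ℤ) else 0
  have hent : ∀ ρ ρ', Ge w (α ρ + γ ρ') (MM X e t' H ρ ρ') := by
    intro ρ ρ'
    have hx : Ge w 0 (algebraMap k L (X (e ρ').2 ρ.1)) := Ge.const _
    have hz0 : Ge w (β ρ.1.1 ρ.2) (ρ.1.1.2 (t' ρ.1.1 ρ.2 : L)) := by
      rcases hb ρ.1.1 ρ.2 with h | h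
      · left
        rw [h, map_zero]
      · right
        exact h
    have key : Ge w (α ρ + γ ρ') (H (e ρ').1 (ρ.1.1.2 (t' ρ.1.1 ρ.2 : L))) := by
      by_cases hi : (e ρ').1 = i0
      · have h1 := entry_not hov (hpres (e ρ').1) hz (hH (e ρ').1)
          (Nat.cast_nonneg (β ρ.1.1 ρ.2)) hz0
        show Ge w (((β ρ.1.1 ρ.2 - 1 : ℕ) : ℤ) + if (e ρ').1 = i0 then 1 - (a₀ : ℤ) else 0) _
        rw [if_pos hi]
        rcases Nat.eq_zero_or_pos (β ρ.1.1 ρ.2) with hb0 | hb0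
        · rw [hb0]
          exact h1.2.mono (by simp)
        · exact h1.1.mono (by
            rw [Nat.cast_sub hb0]
            push_cast
            omega)
      · have h1 := entry_log hov (hpres (e ρ').1) hz (by
          rw [hE, if_neg hi]) (hH (e ρ').1) hz0
        show Ge w (((β ρ.1.1 ρ.2 - 1 : ℕ) : ℤ) + if (e ρ').1 = i0 then 1 - (a₀ : ℤ) else 0) _
        rw [if_neg hi]
        exact h1.mono (by omega)
    have h1 := hx.mul key
    rw [zero_add] at h1
    exact h1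
  have hdet := det_ge hent
  have hdet0 : (MM X e t' H).det ≠ 0 ∨ T = 0 := by
    by_contra hcon
    push Not at hcon
    exact h01 (by rw [hcon.1, zero_pow hcon.2])
  let A : (Fin r × (L ≃ₐ[K] L)) → ℝ := fun q => ((∑ l, (β q l - 1) : ℕ) : ℝ)
  have hα : ((∑ ρ, α ρ : ℤ) : ℝ) = ∑ a : Cps L c D, A a.1 := by
    rw [Fintype.sum_sigma]
    push_cast
    refine Finset.sum_congr rfl fun q _ => ?_
    show ∑ l : Fin (y q.1.1), ((((β q.1 l - 1 : ℕ) : ℤ)) : ℝ) = ((∑ l, (β q.1 l - 1) : ℕ) : ℝ)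
    push_cast
    rfl
  have hβ : ((∑ ρ, γ ρ : ℤ) : ℝ) = N * (1 - (a₀ : ℝ)) := by
    have h1 : ∑ ρ, γ ρ = ∑ γ : Fin n × Fin N, if γ.1 = i0 then 1 - (a₀ : ℤ) else 0 :=
      Equiv.sum_comp e fun γ : Fin n × Fin N => if γ.1 = i0 then 1 - (a₀ : ℤ) else 0
    rw [h1, Fintype.sum_prod_type, Finset.sum_eq_single i0]
    · simp
      ring
    · intro i _ hi
      exact Finset.sum_eq_zero fun _ _ => if_neg hi
    · intro h
      exact (h (Finset.mem_univ _)).elim
  have hdet' : T * (∑ a : Cps L c D, A a.1 + N * (1 - (a₀ : ℝ))) ≤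
      (w.ord ((MM X e t' H).det ^ T) : ℝ) := by
    rw [w.ord_pow]
    rcases hdet0 with h | h
    · have h1 := hdet.resolve_left h
      have h2 : ((∑ ρ, α ρ + ∑ ρ, γ ρ : ℤ) : ℝ) ≤ (w.ord (MM X e t' H).det : ℝ) := by
        exact_mod_cast h1
      rw [Int.cast_add, hα, hβ] at h2
      push_cast at h2 ⊢
      exact mul_le_mul_of_nonneg_left h2 (Nat.cast_nonneg T)
    · rw [h]
      simp
  -- the sections
  have hsec : ∀ a' : Cps L c D, ∃ s ∈ S a'.1.1, s ≠ 0 ∧
      (b : ℝ) * w.ord (a'.1.2 (s : L)) - T * a a'.1 - T * A a'.1 ≤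
        (w.ord (a'.1.2 (η a' (F' a'.1) : L)) : ℝ) := by
    intro a'
    obtain ⟨s, hs, hs0, h1⟩ := (hη' a'.1 T b (S a'.1.1) (η a') (hS _) (hη a')).resolve_left
      fun h => h03 a' (by
        rw [h]
        exact map_zero a'.1.2)
    refine ⟨s, hs, hs0, ?_⟩
    have h2 : (w.comp (a'.1.2.restrictScalars k)).ord (η a' (F' a'.1) : L) =
        w.ord (a'.1.2 (η a' (F' a'.1) : L)) := rfl
    have h3 : (w.comp (a'.1.2.restrictScalars k)).ord (s : L) = w.ord (a'.1.2 (s : L)) := rfl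
    rw [h2, h3] at h1
    show _ - _ - _ * ((∑ l, (β a'.1 l - 1) : ℕ) : ℝ) ≤ _
    linarith
  choose s hs hs0 hse using hsec
  refine ⟨s, fun a => ⟨hs a, hs0 a⟩, ?_⟩
  have hsum : (w.ord (∏ a : Cps L c D, a.1.2 (η a (F' a.1) : L)) : ℝ) =
      ∑ a : Cps L c D, (w.ord (a.1.2 (η a (F' a.1) : L)) : ℝ) := by
    rw [Pool.Agent.H891.BL.ord_prod' w _ fun a _ => h03 a]
    push_cast
    rfl
  have hsum' : (w.ord (∏ a : Cps L c D, a.1.2 (s a : L)) : ℝ) =
      ∑ a : Cps L c D, (w.ord (a.1.2 (s a : L)) : ℝ) := by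
    rw [Pool.Agent.H891.BL.ord_prod' w _ fun a _ => by
      rw [Ne, map_eq_zero_iff _ a.1.2.injective]
      exact fun h => hs0 a (Subtype.ext h)]
    push_cast
    rfl
  rw [w.ord_mul h01 h02]
  push_cast
  rw [hsum, hsum']
  have h1 := Finset.sum_le_sum fun (a : Cps L c D) (_ : a ∈ Finset.univ) => hse a
  -- the ramification
  have h2 : ∀ σ : L ≃ₐ[K] L, ∑ j, (c j : ℝ) * a (j, σ) ≤ d' * (1 - a₀ * (1 - δ v)) := by
    intro σ
    exact hram (w.comp (σ.restrictScalars k)) v a₀ (div_comp hw _) (over_comp hov σ) _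
      fun j => hmul (j, σ)
  have h3 : ∑ a' : Cps L c D, (T : ℝ) * a a'.1 ≤ T * N * (1 - a₀ * (1 - δ v)) := by
    have h4 : ∑ a' : Cps L c D, (T : ℝ) * a a'.1 =
        T * D * ∑ σ : L ≃ₐ[K] L, ∑ j, (c j : ℝ) * a (j, σ) := by
      rw [Fintype.sum_sigma, Fintype.sum_prod_type, Finset.sum_comm, Finset.mul_sum]
      refine Finset.sum_congr rfl fun σ _ => ?_
      rw [Finset.mul_sum]
      refine Finset.sum_congr rfl fun j _ => ?_
      show ∑ _x : Fin (D * c j), (T : ℝ) * a (j, σ) = _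
      rw [Finset.sum_const, Finset.card_univ, Fintype.card_fin, nsmul_eq_mul]
      push_cast
      ring
    rw [h4]
    have h5 : ∑ σ : L ≃ₐ[K] L, ∑ j, (c j : ℝ) * a (j, σ) ≤
        ∑ _σ : L ≃ₐ[K] L, (d' : ℝ) * (1 - a₀ * (1 - δ v)) := Finset.sum_le_sum fun σ _ => h2 σ
    rw [Finset.sum_const, Finset.card_univ, nsmul_eq_mul, ← Nat.card_eq_fintype_card] at h5
    have h6 := mul_le_mul_of_nonneg_left h5
      (mul_nonneg (Nat.cast_nonneg (α := ℝ) T) (Nat.cast_nonneg (α := ℝ) D))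
    refine h6.trans (le_of_eq ?_)
    rw [hN]
    push_cast
    ring
  have h4 : ∑ a' : Cps L c D, ((b : ℝ) * w.ord (a'.1.2 (s a' : L)) - T * a a'.1 - T * A a'.1) =
      b * ∑ a' : Cps L c D, (w.ord (a'.1.2 (s a' : L)) : ℝ) - ∑ a' : Cps L c D, (T : ℝ) * a a'.1 -
        T * ∑ a' : Cps L c D, A a'.1 := by
    rw [Finset.sum_sub_distrib, Finset.sum_sub_distrib, Finset.mul_sum, Finset.mul_sum]
  rw [h4] at h1
  linarith [h1, h3, hdet']

end

end Pool.Agent.H891.RB
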