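import Pool.Agent.H891.RH.Defs

/-! Lower bounds for the numerical dimension: definition. -/

set_option autoImplicit false
set_option linter.overlappingInstances false
set_option linter.unusedSectionVars false

open FF Pool.Agent.W619.PQ Pool.Agent.W619.TW Pool.Agent.Y174

namespace Pool.Agent.H891.RB

/-- `ν (K + Δ) ≥ a` for the variety of dimension `n` with function field `M`: there are a divisor `A`
(generated by a finite set `S` of functions) and a constant `C` with
`h⁰ (m (K + Δ) + A) ≥ m ^ a / C` for all `m ≥ 1`. -/
def NumGe (k M : Type) [Field k] [Field M] [Algebra k M] (n : ℕ) (δ : Place k M → ℝ) (a : ℕ) :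
    Prop :=
  ∃ (S : Finset M) (C : ℕ), ∀ m : ℕ, 1 ≤ m → ∃ N : ℕ, m ^ a ≤ C * N ∧
    HasIndep k M n N (PairSec k M n δ S m 1)

end Pool.Agent.H891.RB
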