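import Pool.Agent.H891.RH.Kod
import Pool.Agent.H891.SM.Coord

/-! The transcendence degree of the ratios of pluricanonical forms on the images. -/

set_option autoImplicit false
set_option linter.overlappingInstances false
set_option linter.unusedSectionVars false

open FF IntermediateField Pool.Agent.W619.PQ Pool.Agent.W619.PL Pool.Agent.W619.TW
  Pool.Agent.W603.LV Pool.Agent.W619.Y Pool.Agent.Y174 Pool.Agent.Y173.QA
  Pool.Agent.H891.RH Pool.Agent.H891.BL Pool.Agent.H891.TY Pool.Agent.H891.SM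

namespace Pool.Agent.H891.RB

section

variable {k : Type} {K : Type} [Field k] [Field K] [Algebra k K] [CharZero k] {n : ℕ}
  {y₀ : Fin n → K}
  (hx : IsTranscendenceBasis k (algebraMap K (AlgebraicClosure K) ∘ y₀))
  {G : Fin n → Derivation k (AlgebraicClosure K) (AlgebraicClosure K)}
  (hG : ∀ i j, G i ((algebraMap K (AlgebraicClosure K) ∘ y₀) j) = if i = j then 1 else 0)

/-- functions with independent differentials are algebraically independent -/
theorem indep_of_diff {a : ℕ} {z : Fin a → AlgebraicClosure K}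
    (h : LinearIndependent (AlgebraicClosure K) fun l => fun i => G i (z l)) :
    AlgebraicIndependent k z := by
  classical
  refine indep_of_duals fun l => ?_
  -- a covector
  have h1 : ∃ φ : (Fin n → AlgebraicClosure K) →ₗ[AlgebraicClosure K] AlgebraicClosure K,
      ∀ l', φ (fun i => G i (z l')) = if l' = l then 1 else 0 := by
    let b := Module.Basis.span h
    obtain ⟨φ, hφ⟩ := LinearMap.exists_extend (b.coord l)
    refine ⟨φ, fun l' => ?_⟩
    have h2 : (b l' : Fin n → AlgebraicClosure K) = fun i => G i (z l') :=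
      congrArg Subtype.val (Module.Basis.span_apply h l')
    have h3 : φ (b l') = b.coord l (b l') := by
      rw [← hφ]
      rfl
    rw [← h2, h3, Module.Basis.coord_apply, Module.Basis.repr_self, Finsupp.single_apply]
  obtain ⟨φ, hφ⟩ := h1
  let D : Derivation k (AlgebraicClosure K) (AlgebraicClosure K) :=
    ∑ i, φ (Pi.single i 1) • G i
  have hD : ∀ x, D x = φ fun i => G i x := by
    intro x
    show (∑ i, φ (Pi.single i 1) • G i) x = _
    rw [Pool.Agent.W721.PG.EFF2.der_sum]
    have h2 : (fun i => G i x) = ∑ i, G i x • (Pi.single i (1 : AlgebraicClosure K) :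
        Fin n → AlgebraicClosure K) := by
      funext j
      rw [Finset.sum_apply, Finset.sum_eq_single j]
      · rw [Pi.smul_apply, Pi.single_eq_same, smul_eq_mul, mul_one]
      · intro i _ hi
        rw [Pi.smul_apply, Pi.single_eq_of_ne (Ne.symm hi), smul_zero]
      · intro h
        exact (h (Finset.mem_univ _)).elim
    rw [h2, map_sum]
    refine Finset.sum_congr rfl fun i _ => ?_
    rw [map_smul, smul_eq_mul, mul_comm]
  refine ⟨D, ?_, fun l' hl' => ?_⟩
  · rw [hD, hφ, if_pos rfl]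
  · rw [hD, hφ, if_neg hl']

include hx hG in
/-- and conversely -/
theorem diff_of_indep {a : ℕ} {z : Fin a → AlgebraicClosure K} (hz : AlgebraicIndependent k z) :
    LinearIndependent (AlgebraicClosure K) fun l => fun i => G i (z l) := by
  classical
  obtain ⟨T, hT, hTb⟩ := exists_isTranscendenceBasis_superset (s := Set.range z) hz.coe_range
  obtain ⟨D, hD⟩ := Pool.Agent.Y173.QA.exists_duals (k := k) (L := AlgebraicClosure K) hTb
  rw [Fintype.linearIndependent_iff]
  intro c hc l
  have h1 : ∀ i, ∑ l', c l' * G i (z l') = 0 := by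
    intro i
    have h2 := congrFun hc i
    rw [Finset.sum_apply] at h2
    exact h2
  have h2 : ∑ l', c l' * D ⟨z l, hT ⟨l, rfl⟩⟩ (z l') = 0 := by
    have h3 := der_expand hx hG (D ⟨z l, hT ⟨l, rfl⟩⟩)
    have h4 : ∀ l', D ⟨z l, hT ⟨l, rfl⟩⟩ (z l') = ∑ b, D ⟨z l, hT ⟨l, rfl⟩⟩
        ((algebraMap K (AlgebraicClosure K) ∘ y₀) b) * G b (z l') := by
      intro l'
      have h5 := congrArg (fun D : Derivation k (AlgebraicClosure K) (AlgebraicClosure K) =>
        D (z l')) h3
      change _ = (∑ b, D ⟨z l, hT ⟨l, rfl⟩⟩ ((algebraMap K (AlgebraicClosure K) ∘ y₀) b) • G b)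
        (z l') at h5
      rw [Pool.Agent.W721.PG.EFF2.der_sum] at h5
      exact h5
    simp only [h4, Finset.mul_sum]
    rw [Finset.sum_comm]
    refine Finset.sum_eq_zero fun b _ => ?_
    rw [← mul_zero (D ⟨z l, hT ⟨l, rfl⟩⟩ ((algebraMap K (AlgebraicClosure K) ∘ y₀) b)),
      ← h1 b, Finset.mul_sum]
    exact Finset.sum_congr rfl fun l' _ => by ring
  rw [Finset.sum_eq_single l] at h2
  · have h3 := hD ⟨z l, hT ⟨l, rfl⟩⟩ ⟨z l, hT ⟨l, rfl⟩⟩
    rw [if_pos rfl] at h3
    rw [h3, mul_one] at h2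
    exact h2
  · intro l' _ hl'
    have h3 := hD ⟨z l, hT ⟨l, rfl⟩⟩ ⟨z l', hT ⟨l', rfl⟩⟩
    rw [if_neg] at h3
    · rw [h3, mul_zero]
    · intro h6
      exact hl' (hz.injective (congrArg Subtype.val h6)).symm
  · intro h
    exact (h (Finset.mem_univ _)).elim

variable {L : IntermediateField K (AlgebraicClosure K)} [FiniteDimensional K L] [IsGalois K L]

include hx hG in
/-- **The dimension of the image of the Iitaka fibrations.** -/
theorem exists_ratios (hn : Algebra.trdeg k K = n) {r : ℕ} {Y : Fin r → IntermediateField k L}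
    {B : Fin r → IntermediateField k (AlgebraicClosure K)} {y f : Fin r → ℕ}
    (h : ∀ j, IsFibres L (Y j) (B j) n (y j) (f j)) {c : Fin r → ℕ} {d d' : ℕ} (hd' : 1 ≤ d')
    (hdd : d + d' = ∑ j, c j) (hBL : BLDist n B f c d) (hs : ∑ j, c j * f j = d * n)
    {δY : ∀ j, Place k (Y j) → ℝ} {κ : Fin r → ℕ}
    (hκ : ∀ j, PairKod k (Y j) (y j) (δY j) (κ j)) :
    ∃ (a : ℕ) (z : Fin a → L), AlgebraicIndependent k z ∧
      (∀ i, ∃ (j : Fin r) (x : Y j) (σ : L ≃ₐ[K] L), IsSecRatio (k := k) (y j) (δY j) x ∧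
        z i = σ x) ∧ ∑ j, c j * κ j ≤ d' * a := by
  classical
  have htow : IsScalarTower k L (AlgebraicClosure K) := IsScalarTower.of_algebraMap_eq fun x => by
    rw [IsScalarTower.algebraMap_apply k K L, IsScalarTower.algebraMap_apply k K
      (AlgebraicClosure K)]
    rfl
  let R : Set (AlgebraicClosure K) := {z | ∃ (j : Fin r) (x : Y j) (σ : L ≃ₐ[K] L),
    IsSecRatio (k := k) (y j) (δY j) x ∧ z = ((σ (x : L) : L) : AlgebraicClosure K)}
  let W : Submodule (AlgebraicClosure K) (Fin n → AlgebraicClosure K) := CT G R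
  obtain ⟨v, hv, -, hvi⟩ := Submodule.exists_fun_fin_finrank_span_eq (AlgebraicClosure K)
    ((fun z => fun l => G l z) '' R)
  choose z₁ hz₁R hz₁ using hv
  choose J x σ hxs hzx using hz₁R
  let z : Fin (Module.finrank (AlgebraicClosure K) W) → L := fun i => σ i (x i : L)
  have hzi : AlgebraicIndependent k z₁ := by
    refine indep_of_diff (G := G) ?_
    have h1 : (fun l => fun i => G i (z₁ l)) = v := funext hz₁
    rw [h1]
    exact hvi
  refine ⟨_, z, ?_, fun i => ⟨J i, x i, σ i, hxs i, rfl⟩, ?_⟩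
  · have h1 : z₁ = (IsScalarTower.toAlgHom k L (AlgebraicClosure K)) ∘ z := funext hzx
    rw [h1] at hzi
    exact hzi.of_comp _
  · -- the ranks
    have hlow : ∀ q : Fin r × (L ≃ₐ[K] L), (κ q.1 : ℚ) ≤ dm (CT G (Vals L (Y q.1) q.2) ⊓ W) := by
      intro q
      obtain ⟨m, hm, ω, hω, X, hX, hind⟩ := hκ q.1
      let τ : (Y q.1) →ₐ[k] AlgebraicClosure K :=
        ((IsScalarTower.toAlgHom k L (AlgebraicClosure K)).comp
          ((q.2.restrictScalars k).toAlgHom)).comp (Y q.1).val
      have h1 : AlgebraicIndependent k fun l : Fin (κ q.1) => τ (ω l.succ X / ω 0 X) :=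
        hind.map' (f := τ) τ.toRingHom.injective
      have h2 := diff_of_indep hx hG h1
      have h3 : Submodule.span (AlgebraicClosure K) (Set.range fun l : Fin (κ q.1) =>
          fun i => G i (τ (ω l.succ X / ω 0 X))) ≤ CT G (Vals L (Y q.1) q.2) ⊓ W := by
        refine Submodule.span_le.2 ?_
        rintro _ ⟨l, rfl⟩
        refine ⟨Submodule.subset_span ⟨_, ⟨(ω l.succ X / ω 0 X : Y q.1), (ω l.succ X / ω 0 X).2,
          rfl⟩, rfl⟩, Submodule.subset_span ⟨_, ⟨q.1, ω l.succ X / ω 0 X, q.2,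
            ⟨m, hm, ω l.succ, ω 0, hω _, hω _, X, hX 0, rfl⟩, rfl⟩, rfl⟩⟩
      have h4 := Submodule.finrank_mono h3
      rw [finrank_span_eq_card h2, Fintype.card_fin] at h4
      unfold dm
      exact_mod_cast h4
    have hBLc := cot_BL hx hG hn h hd' hdd hBL hs W bot_le le_top
    set g : ℕ := Fintype.card (L ≃ₐ[K] L) with hg
    have hg0 : 0 < g := Fintype.card_pos_iff.2 ⟨1⟩
    have hd0 : (0 : ℚ) < d' := by exact_mod_cast hd'
    have hgq : (0 : ℚ) < g := by exact_mod_cast hg0
    have h4 : dm (⊤ : Submodule (AlgebraicClosure K) (Fin n → AlgebraicClosure K)) = n := by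
      unfold dm
      rw [finrank_top, Module.finrank_fintype_fun_eq_card, Fintype.card_fin]
    have h2 : ∀ q : Fin r × (L ≃ₐ[K] L), dm (CT G (Vals L (Y q.1) q.2) ⊓ ⊤) = y q.1 := by
      intro q
      rw [inf_top_eq]
      unfold dm
      rw [rank_vals hx hG hn (h q.1)]
    unfold slack at hBLc
    simp only [h2] at hBLc
    rw [h4] at hBLc
    have h5 : ∑ q : Fin r × (L ≃ₐ[K] L), (c q.1 : ℚ) / (d' * g) * ((y q.1 : ℚ) -
        dm (CT G (Vals L (Y q.1) q.2) ⊓ W)) ≤ ∑ q : Fin r × (L ≃ₐ[K] L),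
          (c q.1 : ℚ) / (d' * g) * ((y q.1 : ℚ) - κ q.1) := by
      refine Finset.sum_le_sum fun q _ => ?_
      refine mul_le_mul_of_nonneg_left ?_ (by positivity)
      linarith [hlow q]
    have h6 : ∑ q : Fin r × (L ≃ₐ[K] L), (c q.1 : ℚ) / (d' * g) * ((y q.1 : ℚ) - κ q.1) =
        (∑ j, (c j : ℚ) * y j - ∑ j, (c j : ℚ) * κ j) / d' := by
      rw [Fintype.sum_prod_type, ← Finset.sum_sub_distrib, Finset.sum_div]
      refine Finset.sum_congr rfl fun j _ => ?_
      show ∑ _σ : (L ≃ₐ[K] L), (c j : ℚ) / (d' * g) * ((y j : ℚ) - κ j) = _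
      rw [Finset.sum_const, Finset.card_univ, nsmul_eq_mul, ← hg]
      field_simp
    have hfy : ∀ j, (f j : ℚ) = n - y j := by
      intro j
      rw [eq_sub_iff_add_eq']
      exact_mod_cast (h j).add
    have hsq : (∑ j, (c j : ℚ) * f j) = d * n := by exact_mod_cast hs
    have hcq : (∑ j, (c j : ℚ)) = d + d' := by exact_mod_cast hdd.symm
    have h9 : ∑ j, (c j : ℚ) * y j = n * d' := by
      have h10 : ∑ j, (c j : ℚ) * y j = n * (∑ j, (c j : ℚ)) - ∑ j, (c j : ℚ) * f j := by
        rw [Finset.mul_sum, ← Finset.sum_sub_distrib]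
        refine Finset.sum_congr rfl fun j _ => ?_
        rw [hfy]
        ring
      rw [h10, hsq, hcq]
      ring
    rw [h6, h9] at h5
    have h11 : (n : ℚ) - dm W ≤ (n * d' - ∑ j, (c j : ℚ) * κ j) / d' := by linarith
    rw [le_div_iff₀ hd0] at h11
    have h12 : ∑ j, (c j : ℚ) * κ j ≤ d' * dm W := by linarith
    unfold dm at h12
    have h13 : ((∑ j, c j * κ j : ℕ) : ℚ) ≤ ((d' * Module.finrank (AlgebraicClosure K) W : ℕ) : ℚ) := by
      push_cast
      exact h12
    exact_mod_cast h13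

end

end Pool.Agent.H891.RB
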