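import Pool.Agent.H891.RB.Main
import Pool.Agent.H891.RB.Ratios
import Pool.Agent.H891.RB.Defs
import Pool.Agent.H891.SM.Grow

/-! Growth of the numbers of sections. -/

set_option autoImplicit false
set_option linter.overlappingInstances false
set_option linter.unusedSectionVars false

open FF IntermediateField Pool.Agent.W619.PQ Pool.Agent.W619.PL Pool.Agent.W619.TW
  Pool.Agent.W603.LV Pool.Agent.W619.Y Pool.Agent.Y174 Pool.Agent.Y173.QA
  Pool.Agent.H891.RH Pool.Agent.H891.BL Pool.Agent.H891.TY Pool.Agent.H891.SM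
  Pool.Agent.H891.KS

namespace Pool.Agent.H891.RB

section

variable {k : Type} {M : Type} [Field k] [Field M] [Algebra k M] {n : ℕ} {δ : Place k M → ℝ}

open scoped Classical in
theorem pow_sec {S : Finset M} {m j : ℕ} {ω : (Fin n → Derivation k M M) → M}
    (hω : PairSec k M n δ S m j ω) : PairSec k M n δ (S.image fun s => s ^ j) m 1 ω := by
  refine ⟨hω.1, fun v hv X hX => ?_⟩
  rcases hω.2 v hv X hX with h | ⟨s, hs, hs0, h⟩
  · exact Or.inl h
  · right
    refine ⟨s ^ j, Finset.mem_image.2 ⟨s, hs, rfl⟩, pow_ne_zero _ hs0, ?_⟩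
    rw [v.ord_pow]
    push_cast
    rw [one_mul]
    exact h

variable [CharZero k]

/-- small powers of a rational form, compared with a section -/
theorem frame_sec {m : ℕ} (hm : 1 ≤ m) {σ : (Fin n → Derivation k M M) → M}
    (hσ : PairSec k M n δ {1} m 0 σ) {t : Fin n → M} (ht : IsTranscendenceBasis k t)
    {F : Fin n → Derivation k M M} (hF : ∀ i j, F i (t j) = if i = j then 1 else 0)
    (h0 : σ F ≠ 0) {r : ℕ} (hr : r ≤ m) [DecidableEq M] :
    PairSec k M n δ {1, (σ F)⁻¹} r 1 fun Z => (Matrix.of fun a b => Z a (t b)).det ^ r := by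
  refine ⟨fun A Z => ?_, fun v hv Z hZ => ?_⟩
  · have e : (Matrix.of fun a b => (∑ j, A a j • Z j) (t b)) =
        A * Matrix.of fun a b => Z a (t b) := by
      refine Matrix.ext fun a b => ?_
      rw [Matrix.of_apply, Matrix.mul_apply, Pool.Agent.W721.PG.EFF2.der_sum]
      rfl
    show (Matrix.of fun a b => (∑ j, A a j • Z j) (t b)).det ^ _ = _
    rw [e, Matrix.det_mul, mul_pow]
  · show (Matrix.of fun a b => Z a (t b)).det ^ r = 0 ∨ ∃ s ∈ ({1, (σ F)⁻¹} : Finset M), s ≠ 0 ∧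
      ((1 : ℕ) : ℝ) * v.ord s - r * δ v ≤ v.ord ((Matrix.of fun a b => Z a (t b)).det ^ r)
    set p := (Matrix.of fun a b => Z a (t b)).det with hp
    have hσZ : σ Z = p ^ m * σ F := by
      have h1 := hσ.1 (Matrix.of fun a b => Z a (t b)) F
      have h2 : (fun i => ∑ j, (Matrix.of fun a b => Z a (t b)) i j • F j) = Z := by
        funext i
        exact Pool.Agent.W73.PG.PULL.expand t ht F hF (Z i)
      rwa [h2] at h1
    rcases Nat.eq_zero_or_pos r with rfl | hr0
    · right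
      refine ⟨1, Finset.mem_insert_self _ _, one_ne_zero, ?_⟩
      rw [pow_zero, v.ord_one]
      simp
    by_cases hp0 : p = 0
    · left
      rw [hp0, zero_pow (by omega)]
    right
    rcases hσ.2 v hv Z hZ with h | ⟨s, hs, hs0, h⟩
    · rw [hσZ] at h
      exact (mul_ne_zero (pow_ne_zero _ hp0) h0 h).elim
    rw [hσZ, v.ord_mul (pow_ne_zero _ hp0) h0, v.ord_pow] at h
    push_cast at h
    rw [zero_mul, zero_sub] at h
    have hmr : (0 : ℝ) < m := by exact_mod_cast hm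
    have hrm : (r : ℝ) ≤ m := by exact_mod_cast hr
    have hr0' : (0 : ℝ) ≤ r := by positivity
    have hx : -(v.ord (σ F) : ℝ) ≤ m * ((v.ord p : ℝ) + δ v) := by linarith
    rcases le_or_gt (v.ord (σ F)) 0 with hf | hf
    · refine ⟨1, Finset.mem_insert_self _ _, one_ne_zero, ?_⟩
      rw [v.ord_one, v.ord_pow]
      push_cast
      have hf' : (v.ord (σ F) : ℝ) ≤ 0 := by exact_mod_cast hf
      have hx0 : 0 ≤ (v.ord p : ℝ) + δ v := by
        by_contra hcon
        push Not at hcon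
        have := mul_neg_of_pos_of_neg hmr hcon
        linarith
      have := mul_nonneg hr0' hx0
      linarith
    · refine ⟨(σ F)⁻¹, Finset.mem_insert_of_mem (Finset.mem_singleton_self _), inv_ne_zero h0, ?_⟩
      rw [v.ord_inv, v.ord_pow]
      push_cast
      have hf' : (0 : ℝ) < v.ord (σ F) := by exact_mod_cast hf
      have h1 : (m : ℝ) * (-(v.ord (σ F) : ℝ)) ≤ m * (r * ((v.ord p : ℝ) + δ v)) := by
        have h2 := mul_le_mul_of_nonneg_left hx hr0'
        have h3 := mul_le_mul_of_nonneg_right hrm hf'.le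
        linarith
      have h2 := le_of_mul_le_mul_left h1 hmr
      linarith

/-- `κ ≥ h` implies `ν ≥ h`. -/
theorem kod_num (hn : Algebra.trdeg k M = n) {h : ℕ} (hk : PairKod k M n δ h) :
    NumGe k M n δ h := by
  classical
  obtain ⟨m, hm, hg⟩ := kod_growth hk
  obtain ⟨t, ht⟩ := Pool.Agent.W636.PG.exists_basis k M n hn
  obtain ⟨F, hF⟩ := Pool.Agent.W636.PG.exists_duals k M n _ ht
  have hexp : ∀ Z : Derivation k M M, ∃ a : Fin n → M, Z = ∑ i, a i • F i :=
    fun Z => ⟨_, der_expand ht hF Z⟩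
  have hdetF : (Matrix.of fun a b => F a (t b)) = 1 := by
    refine Matrix.ext fun a b => ?_
    rw [Matrix.of_apply, hF, Matrix.one_apply]
  obtain ⟨σ, hσ, hσ0⟩ : ∃ σ, PairSec k M n δ {1} m 0 σ ∧ σ F ≠ 0 := by
    obtain ⟨η, hη, hηs⟩ := hg 1
    have h1 := lin_frame hexp hη (fun l => (hηs l).1) (one_ne_zero (α := M))
    have h2 : 0 < 1 ^ h := by rw [one_pow]; exact one_pos
    have h3 := h1.ne_zero ⟨0, h2⟩
    rw [one_mul] at h3
    have h4 := hηs ⟨0, h2⟩
    rw [one_mul] at h4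
    exact ⟨_, h4, h3⟩
  have hsum : ∀ (N e r : ℕ) (η : Fin N → (Fin n → Derivation k M M) → M),
      LinearIndependent k η → (∀ l, PairSec k M n δ {1} e 0 (η l)) → r ≤ m →
      HasIndep k M n N (PairSec k M n δ (Finset.image₂ (· * ·) {1} {1, (σ F)⁻¹}) (e + r) 1) := by
    intro N e r η hη hηs hr
    refine ⟨fun l Z => η l Z * (Matrix.of fun a b => Z a (t b)).det ^ r, ?_,
      fun l => sec_mul₂ (sec_shift (hηs l)) (frame_sec hm hσ ht hF hσ0 hr)⟩
    have h1 := lin_frame hexp hη (fun l => (hηs l).1) (one_ne_zero (α := M))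
    simp only [one_mul] at h1
    rw [Fintype.linearIndependent_iff] at h1 ⊢
    intro c hc
    refine h1 c ?_
    have h2 := congrFun hc F
    rw [Finset.sum_apply] at h2
    refine (Finset.sum_congr rfl fun l _ => ?_).trans h2
    show c l • η l F = c l • (η l F * (Matrix.of fun a b => F a (t b)).det ^ r)
    rw [hdetF, Matrix.det_one, one_pow, mul_one]
  refine ⟨Finset.image₂ (· * ·) {1} {1, (σ F)⁻¹}, (2 * m) ^ h, fun m' hm' => ?_⟩
  have hdm : m * (m' / m) + m' % m = m' := Nat.div_add_mod m' m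
  have hr : m' % m < m := Nat.mod_lt _ hm
  rcases Nat.eq_zero_or_pos (m' / m) with hq | hq
  · refine ⟨1, ?_, ?_⟩
    · rw [mul_one]
      rw [hq, mul_zero, zero_add] at hdm
      exact Nat.pow_le_pow_left (by omega) h
    · have h1 := hsum 1 0 (m' % m) (fun _ _ => 1) (by
        rw [Fintype.linearIndependent_iff]
        intro c hc i
        have h2 := congrFun hc F
        rw [Finset.sum_apply, Finset.univ_unique, Finset.sum_singleton] at h2
        have h3 : c default • (1 : M) = 0 := h2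
        rw [Algebra.smul_def, mul_one] at h3
        rw [Subsingleton.elim i default]
        exact (map_eq_zero_iff _ (algebraMap k M).injective).1 h3) (fun _ => sec_one) hr.le
      have h2 : 0 + m' % m = m' := by
        rw [hq, mul_zero] at hdm
        exact hdm
      rwa [h2] at h1
  · refine ⟨(m' / m) ^ h, ?_, ?_⟩
    · rw [← mul_pow]
      refine Nat.pow_le_pow_left ?_ h
      have h1 : m ≤ m * (m' / m) := Nat.le_mul_of_pos_right m hq
      calc m' = m * (m' / m) + m' % m := hdm.symm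
        _ ≤ m * (m' / m) + m * (m' / m) := by omega
        _ = 2 * m * (m' / m) := by ring
    · obtain ⟨η, hη, hηs⟩ := hg (m' / m)
      have h1 := hsum _ _ (m' % m) η hη hηs hr.le
      have h2 : m' / m * m + m' % m = m' := by
        rw [mul_comm]
        exact hdm
      rwa [h2] at h1

end

section

variable {k : Type} {K : Type} [Field k] [Field K] [Algebra k K] [CharZero k] [IsAlgClosed k] {n : ℕ}
  {L : IntermediateField K (AlgebraicClosure K)} [FiniteDimensional K L] [IsGalois K L]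
  {r : ℕ} {Y : Fin r → IntermediateField k L} [∀ j, Algebra.EssFiniteType k (Y j)]
  {B : Fin r → IntermediateField k (AlgebraicClosure K)} {y f c : Fin r → ℕ}
  {d d' : ℕ} {δ : Place k K → ℝ} {δY : ∀ j, Place k (Y j) → ℝ}

theorem grow (hess : Algebra.EssFiniteType k K) (hn : Algebra.trdeg k K = n)
    (h : ∀ j, IsFibres L (Y j) (B j) n (y j) (f j)) (hd' : 1 ≤ d')
    (hdd : d + d' = ∑ j, c j) (hBL : BLDist n B f c d) (hs : ∑ j, c j * f j = d * n)
    (hram : RamBound n L δ Y δY c d') {a : ℕ} (hnum : PairNum k K n δ a) :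
    ∃ N₀ : ℕ, 1 ≤ N₀ ∧ ∀ S : ∀ j, Finset (Y j), ∃ C' : ℕ, ∀ m : ℕ, 1 ≤ m → ∀ P : Fin r → ℕ,
      (∀ j, HasIndep k (Y j) (y j) (P j) (PairSec k (Y j) (y j) (δY j) (S j) m 1)) →
      ∏ j, P j ^ (c j * N₀) ≤ C' * m ^ (d' * a * N₀) := by
  classical
  obtain ⟨D, hD, hrb, -⟩ := rb hess hn h hd' hdd hBL hs
  have hg0 : 0 < Nat.card (L ≃ₐ[K] L) := Nat.card_pos
  set g := Nat.card (L ≃ₐ[K] L) with hg
  have hN : 0 < d' * g * D := Nat.mul_pos (Nat.mul_pos hd' hg0) hD
  refine ⟨g * D, Nat.mul_pos hg0 hD, fun S => ?_⟩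
  obtain ⟨S', hS'⟩ := hrb S
  obtain ⟨C, hC⟩ := hnum (S'.image fun s => s ^ (1 + 1))
  refine ⟨(Module.finrank K L * (C * (d' * g * D) ^ a)) ^ (d' * g * D), fun m hm P hP => ?_⟩
  have h1 := hS' δ δY hram m 1 (C * (m * (d' * g * D)) ^ a) P hP fun M' hM' => by
    obtain ⟨ω, hω, hωs⟩ := hM'
    exact hC _ M' (Nat.mul_pos hm hN) ⟨ω, hω, fun l => pow_sec (hωs l)⟩
  have h2 : ∏ j, P j ^ (c j * (g * D)) = ∏ j, P j ^ (g * (D * c j)) :=
    Finset.prod_congr rfl fun j _ => by
      congr 1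
      ring
  rw [h2]
  refine h1.trans (le_of_eq ?_)
  rw [mul_pow m, ← mul_assoc C, mul_comm (C * m ^ a), ← mul_assoc, ← mul_assoc]
  have h3 : d' * a * (g * D) = a * (d' * g * D) := by ring
  rw [h3, pow_mul m a, ← mul_pow]
  congr 1
  ring

/-- **`ν (V) ≥ ∑ p j ν (Y j)`.** -/
theorem num_ge (hess : Algebra.EssFiniteType k K) (hn : Algebra.trdeg k K = n)
    (h : ∀ j, IsFibres L (Y j) (B j) n (y j) (f j)) (hd' : 1 ≤ d')
    (hdd : d + d' = ∑ j, c j) (hBL : BLDist n B f c d) (hs : ∑ j, c j * f j = d * n)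
    (hram : RamBound n L δ Y δY c d') {a : ℕ} (hnum : PairNum k K n δ a) {ν : Fin r → ℕ}
    (hν : ∀ j, NumGe k (Y j) (y j) (δY j) (ν j)) : ∑ j, c j * ν j ≤ d' * a := by
  classical
  obtain ⟨N₀, hN₀, hgr⟩ := grow hess hn h hd' hdd hBL hs hram hnum
  choose S C hSC using hν
  obtain ⟨C', hC'⟩ := hgr S
  have key : (∑ j, c j * ν j) * N₀ ≤ d' * a * N₀ := by
    refine exp_le (C := (∏ j, C j ^ (c j * N₀)) * C') (m := 1) fun m hm => ?_
    choose P hP1 hP2 using fun j => hSC j m hm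
    have h1 := hC' m hm P hP2
    rw [mul_one]
    calc m ^ ((∑ j, c j * ν j) * N₀) = ∏ j, (m ^ ν j) ^ (c j * N₀) := by
          rw [Finset.sum_mul, ← Finset.prod_pow_eq_pow_sum]
          refine Finset.prod_congr rfl fun j _ => ?_
          rw [← pow_mul]
          congr 1
          ring
      _ ≤ ∏ j, (C j * P j) ^ (c j * N₀) :=
          Finset.prod_le_prod' fun j _ => Nat.pow_le_pow_left (hP1 j) _
      _ = (∏ j, C j ^ (c j * N₀)) * ∏ j, P j ^ (c j * N₀) := by
          rw [← Finset.prod_mul_distrib]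
          exact Finset.prod_congr rfl fun j _ => mul_pow _ _ _
      _ ≤ (∏ j, C j ^ (c j * N₀)) * (C' * m ^ (d' * a * N₀)) := Nat.mul_le_mul_left _ h1
      _ = _ := by ring
  exact Nat.le_of_mul_le_mul_right key hN₀

/-- **Abundance of the images.** -/
theorem images (hess : Algebra.EssFiniteType k K) (hn : Algebra.trdeg k K = n)
    (h : ∀ j, IsFibres L (Y j) (B j) n (y j) (f j)) (hd' : 1 ≤ d')
    (hdd : d + d' = ∑ j, c j) (hBL : BLDist n B f c d) (hs : ∑ j, c j * f j = d * n)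
    (hc : ∀ j, 1 ≤ c j) (hram : RamBound n L δ Y δY c d') {a : ℕ} (hnum : PairNum k K n δ a)
    {κ : Fin r → ℕ} (hκ : ∀ j, NumGe k (Y j) (y j) (δY j) (κ j)) (hle : d' * a ≤ ∑ j, c j * κ j)
    (j₀ : Fin r) : PairNum k (Y j₀) (y j₀) (δY j₀) (κ j₀) := by
  classical
  intro S₀
  obtain ⟨N₀, hN₀, hgr⟩ := grow hess hn h hd' hdd hBL hs hram hnum
  choose S C hSC using hκ
  obtain ⟨C', hC'⟩ := hgr (Function.update S j₀ S₀)
  let E := Finset.univ.erase j₀
  refine ⟨(∏ j ∈ E, C j ^ (c j * N₀)) * C' + 1, fun m N hm hN => ?_⟩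
  choose P hP1 hP2 using fun j => hSC j m hm
  have h1 := hC' m hm (Function.update P j₀ N) fun j => by
    by_cases hj : j = j₀
    · subst hj
      rw [Function.update_self, Function.update_self]
      exact hN
    · rw [Function.update_of_ne hj, Function.update_of_ne hj]
      exact hP2 j
  have h2 : ∏ j, (Function.update P j₀ N) j ^ (c j * N₀) =
      N ^ (c j₀ * N₀) * ∏ j ∈ E, P j ^ (c j * N₀) := by
    rw [← Finset.mul_prod_erase _ _ (Finset.mem_univ j₀), Function.update_self]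
    congr 1
    refine Finset.prod_congr rfl fun j hj => ?_
    rw [Function.update_of_ne (Finset.ne_of_mem_erase hj)]
  rw [h2] at h1
  have h3 : m ^ ((∑ j ∈ E, c j * κ j) * N₀) ≤
      (∏ j ∈ E, C j ^ (c j * N₀)) * ∏ j ∈ E, P j ^ (c j * N₀) := by
    calc m ^ ((∑ j ∈ E, c j * κ j) * N₀) = ∏ j ∈ E, (m ^ κ j) ^ (c j * N₀) := by
          rw [Finset.sum_mul, ← Finset.prod_pow_eq_pow_sum]
          refine Finset.prod_congr rfl fun j _ => ?_
          rw [← pow_mul]
          congr 1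
          ring
      _ ≤ ∏ j ∈ E, (C j * P j) ^ (c j * N₀) :=
          Finset.prod_le_prod' fun j _ => Nat.pow_le_pow_left (hP1 j) _
      _ = _ := by
          rw [← Finset.prod_mul_distrib]
          exact Finset.prod_congr rfl fun j _ => mul_pow _ _ _
  have h4 : m ^ (d' * a * N₀) ≤ m ^ (c j₀ * κ j₀ * N₀) * m ^ ((∑ j ∈ E, c j * κ j) * N₀) := by
    rw [← pow_add, ← add_mul, Finset.add_sum_erase Finset.univ (fun j => c j * κ j)
      (Finset.mem_univ j₀)]
    exact Nat.pow_le_pow_right hm (Nat.mul_le_mul_right _ hle)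
  have h5 : N ^ (c j₀ * N₀) * m ^ ((∑ j ∈ E, c j * κ j) * N₀) ≤
      ((∏ j ∈ E, C j ^ (c j * N₀)) * C' * m ^ (c j₀ * κ j₀ * N₀)) *
        m ^ ((∑ j ∈ E, c j * κ j) * N₀) := by
    calc N ^ (c j₀ * N₀) * m ^ ((∑ j ∈ E, c j * κ j) * N₀) ≤ N ^ (c j₀ * N₀) *
          ((∏ j ∈ E, C j ^ (c j * N₀)) * ∏ j ∈ E, P j ^ (c j * N₀)) := Nat.mul_le_mul_left _ h3
      _ = (∏ j ∈ E, C j ^ (c j * N₀)) * (N ^ (c j₀ * N₀) * ∏ j ∈ E, P j ^ (c j * N₀)) := by ring
      _ ≤ (∏ j ∈ E, C j ^ (c j * N₀)) * (C' * m ^ (d' * a * N₀)) := Nat.mul_le_mul_left _ h1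
      _ ≤ (∏ j ∈ E, C j ^ (c j * N₀)) * (C' * (m ^ (c j₀ * κ j₀ * N₀) *
          m ^ ((∑ j ∈ E, c j * κ j) * N₀))) :=
          Nat.mul_le_mul_left _ (Nat.mul_le_mul_left _ h4)
      _ = _ := by ring
  have h6 := Nat.le_of_mul_le_mul_right h5 (pow_pos (by omega : 0 < m) _)
  refine pow_bound (q := c j₀ * N₀) hm (Nat.mul_pos (hc j₀) hN₀) (le_of_eq ?_) h6
  ring

end

end Pool.Agent.H891.RB
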