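import Pool.Agent.H891.BL.Full

/-! Products of functions in separate variables; leading forms of products. -/

set_option autoImplicit false
set_option linter.unusedSectionVars false

open MvPolynomial Pool.Agent.H891.TY Pool.Agent.H891.BL
open scoped Pointwise

namespace Pool.Agent.H891.RB

section

variable {F : Type*} [Field F]

/-- points and coefficients dual to independent functions -/
theorem dual_points {X : Type*} {M : ℕ} {f : Fin M → X → F} (hf : LinearIndependent F f) :
    ∃ (s : ℕ) (P : Fin s → X) (C : Fin s → Fin M → F),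
      ∀ i i', ∑ b, f i (P b) * C b i' = if i = i' then 1 else 0 := by
  classical
  let V : Submodule F (X → F) := Submodule.span F (Set.range f)
  have hfd : FiniteDimensional F V := FiniteDimensional.span_of_finite F (Set.finite_range f)
  obtain ⟨P, hP⟩ := exists_points V
  have hcard : Module.finrank F V = M := by
    show Module.finrank F (Submodule.span F (Set.range f)) = M
    rw [finrank_span_eq_card hf, Fintype.card_fin]
  let A : Matrix (Fin M) (Fin (Module.finrank F V)) F := Matrix.of fun a b => f a (P b)
  have h1 : LinearIndependent F A.row := by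
    rw [Fintype.linearIndependent_iff]
    intro c hc
    have h2 : ∑ a, c a • f a = 0 := by
      apply hP
      · exact Submodule.sum_mem _ fun a _ => Submodule.smul_mem _ _
          (Submodule.subset_span ⟨a, rfl⟩)
      · intro b
        have h3 := congrFun hc b
        rw [Finset.sum_apply] at h3 ⊢
        exact h3
    exact Fintype.linearIndependent_iff.1 hf c h2
  let e : Fin (Module.finrank F V) ≃ Fin M := finCongr hcard
  have h2 : IsUnit (A.submatrix id e.symm) := by
    rw [← Matrix.linearIndependent_rows_iff_isUnit]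
    rw [Fintype.linearIndependent_iff]
    intro c hc
    refine Fintype.linearIndependent_iff.1 h1 c ?_
    funext b
    have h3 := congrFun hc (e b)
    rw [Finset.sum_apply] at h3 ⊢
    refine (Finset.sum_congr rfl fun a _ => ?_).trans h3
    show c a * A a b = c a * A a (e.symm (e b))
    rw [Equiv.symm_apply_apply]
  obtain ⟨C, hC⟩ := h2.exists_right_inv
  refine ⟨_, P, fun b i' => C (e b) i', fun i i' => ?_⟩
  have h3 := congrFun (congrFun hC i) i'
  rw [Matrix.mul_apply, Matrix.one_apply] at h3
  rw [← h3]
  refine Fintype.sum_equiv e _ _ fun c => ?_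
  show A i c * C (e c) i' = A i (e.symm (e c)) * C (e c) i'
  rw [Equiv.symm_apply_apply]

/-- Products of independent functions are independent. -/
theorem prod_indep' {X A : Type*} [Fintype A] {M : A → ℕ}
    {f : ∀ a, Fin (M a) → X → F} (hf : ∀ a, LinearIndependent F (f a)) :
    LinearIndependent F fun (j : ∀ a, Fin (M a)) (x : A → X) => ∏ a, f a (j a) (x a) := by
  classical
  choose s P C hC using fun a => dual_points (hf a)
  rw [Fintype.linearIndependent_iff]
  intro c hc j₀
  have h1 : ∀ b : ∀ a, Fin (s a), ∑ j, c j * ∏ a, f a (j a) (P a (b a)) = 0 := by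
    intro b
    have h2 := congrFun hc fun a => P a (b a)
    rw [Finset.sum_apply] at h2
    exact h2
  have h2 : ∑ b : ∀ a, Fin (s a), (∏ a, C a (b a) (j₀ a)) *
      ∑ j, c j * ∏ a, f a (j a) (P a (b a)) = 0 :=
    Finset.sum_eq_zero fun b _ => by rw [h1 b, mul_zero]
  have h3 : ∑ b : ∀ a, Fin (s a), (∏ a, C a (b a) (j₀ a)) *
      ∑ j, c j * ∏ a, f a (j a) (P a (b a)) =
      ∑ j, c j * ∏ a, ∑ b, f a (j a) (P a b) * C a b (j₀ a) := by
    simp only [Finset.mul_sum]
    rw [Finset.sum_comm]
    refine Finset.sum_congr rfl fun j _ => ?_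
    rw [Finset.prod_univ_sum, Fintype.piFinset_univ, Finset.mul_sum]
    refine Finset.sum_congr rfl fun b _ => ?_
    rw [Finset.prod_mul_distrib]
    ring
  rw [h3] at h2
  simp only [hC] at h2
  rw [Finset.sum_eq_single j₀] at h2
  · simpa using h2
  · intro j _ hj
    obtain ⟨l, hl⟩ : ∃ l, j l ≠ j₀ l := by
      by_contra h
      push Not at h
      exact hj (funext h)
    rw [Finset.prod_eq_zero (Finset.mem_univ l), mul_zero]
    exact if_neg hl
  · intro h
    exact (h (Finset.mem_univ _)).elim

end

section

variable {k Ω : Type*} [Field k] [Field Ω] [CharZero Ω] [Algebra k Ω] {n : ℕ}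
  {E : Fin n → Derivation k Ω Ω}

theorem LS_one {W : Set Ω} (h : (1 : Ω) ∈ W) : (1 : MvPolynomial (Fin n) Ω) ∈ LS E W := by
  refine Submodule.subset_span ⟨ser E 1, Submodule.subset_span ⟨1, h, rfl⟩, 0, fun i hi => ?_, ?_⟩
  · exact (Nat.not_lt_zero _ hi).elim
  · rw [coeff_ser, th_zero, C_1]

/-- products of leading forms of different spaces -/
theorem LS_prod' {ι : Type*} (s : Finset ι) {W : ι → Set Ω} {g : ι → MvPolynomial (Fin n) Ω}
    (hg : ∀ i ∈ s, g i ∈ LS E (W i)) : ∏ i ∈ s, g i ∈ LS E (∏ i ∈ s, W i) := by
  classical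
  induction s using Finset.induction_on with
  | empty =>
    rw [Finset.prod_empty, Finset.prod_empty]
    exact LS_one rfl
  | insert i s hi ih =>
    rw [Finset.prod_insert hi, Finset.prod_insert hi]
    exact LS_mul (hg i (Finset.mem_insert_self i s))
      (ih fun j hj => hg j (Finset.mem_insert_of_mem hj))

/-- the combinations of the Taylor series of functions in a subfield -/
theorem VW_con (hcomm : ∀ l m a, E l (E m a) = E m (E l a)) {B W : Set Ω} (hW : W ⊆ B)
    {y : PowerSeries (MvPolynomial (Fin n) Ω)} (hy : y ∈ VW E W) : y ∈ con E B := by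
  induction hy using Submodule.span_induction with
  | mem x hx =>
    obtain ⟨w, hw, rfl⟩ := hx
    exact ser_mem E hcomm (hW hw)
  | zero => exact Subring.zero_mem _
  | add x y _ _ hx hy => exact Subring.add_mem _ hx hy
  | smul c x _ hx =>
    have h1 : c • x = PowerSeries.C (C c : MvPolynomial (Fin n) Ω) * x := by
      ext1 N
      rw [coeff_smul', PowerSeries.coeff_C_mul, smul_eq_C_mul]
    rw [h1]
    exact Subring.mul_mem _ (const_mem E B c) hx

/-- the leading forms of functions in a subfield are constant in the directions which kill it -/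
theorem LS_kill (hcomm : ∀ l m a, E l (E m a) = E m (E l a)) {B W : Set Ω} (hW : W ⊆ B)
    {g : MvPolynomial (Fin n) Ω} (hg : g ∈ LS E W) {t : Fin n → Ω} (ht : t ∈ TB E B) :
    dc t g = 0 := by
  induction hg using Submodule.span_induction with
  | mem x hx =>
    obtain ⟨y, hy, N, hN, rfl⟩ := hx
    have h2 := low E (VW_con hcomm hW hy) hN ht
    rw [dc_apply]
    refine (Finset.sum_congr rfl fun i _ => ?_).trans h2
    rw [smul_eq_C_mul]
  | zero => rw [map_zero]
  | add x y _ _ hx hy => rw [map_add, hx, hy, add_zero]
  | smul c x _ hx => rw [map_smul, hx, smul_zero]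

/-- so they depend only on the class of the tangent vector -/
theorem LS_eval (hcomm : ∀ l m a, E l (E m a) = E m (E l a)) {B W : Set Ω} (hW : W ⊆ B)
    {g : MvPolynomial (Fin n) Ω} (hg : g ∈ LS E W) {u v : Fin n → Ω} (h : u - v ∈ TB E B) :
    eval u g = eval v g := by
  have h1 := tr_eq (LS_kill hcomm hW hg h)
  have h2 := eval_tr (u - v) v g
  rw [h1] at h2
  rw [h2]
  congr 2
  funext i
  exact (add_sub_cancel (v i) (u i)).symm

/-- ranks over the constants -/
theorem rank_bot {S : Set Ω} (hS : S.Finite) :
    Module.finrank (⊥ : IntermediateField k Ω) (Submodule.span (⊥ : IntermediateField k Ω) S) ≤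
      Module.finrank k (Submodule.span k S) := by
  classical
  have hfd : FiniteDimensional k (Submodule.span k S) := FiniteDimensional.span_of_finite k hS
  let b := Module.finBasis k (Submodule.span k S)
  have h1 : Submodule.span (⊥ : IntermediateField k Ω) S ≤
      Submodule.span (⊥ : IntermediateField k Ω) (Set.range fun i => (b i : Ω)) := by
    refine Submodule.span_le.2 fun z hz => ?_
    have h2 := b.sum_repr ⟨z, Submodule.subset_span hz⟩
    have h3 := (congrArg (Submodule.subtype _) h2).symm
    rw [map_sum] at h3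
    change z = _ at h3
    rw [h3]
    refine Submodule.sum_mem _ fun i _ => ?_
    have h4 : (Submodule.subtype (Submodule.span k S)) ((b.repr ⟨z, Submodule.subset_span hz⟩) i •
        b i) = algebraMap k (⊥ : IntermediateField k Ω)
          ((b.repr ⟨z, Submodule.subset_span hz⟩) i) • (b i : Ω) := by
      rw [algebraMap_smul]
      rfl
    rw [h4]
    exact Submodule.smul_mem _ _ (Submodule.subset_span ⟨i, rfl⟩)
  have hfd' : FiniteDimensional (⊥ : IntermediateField k Ω)
      (Submodule.span (⊥ : IntermediateField k Ω) (Set.range fun i => (b i : Ω))) :=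
    FiniteDimensional.span_of_finite _ (Set.finite_range _)
  refine (Submodule.finrank_mono h1).trans ?_
  refine (finrank_range_le_card (R := (⊥ : IntermediateField k Ω)) fun i => (b i : Ω)).trans ?_
  rw [Fintype.card_fin]

/-- **The reverse inequality for spaces of functions.** -/
theorem rev_ineq (hcomm : ∀ l m a, E l (E m a) = E m (E l a))
    (hconst : ∀ a, (∀ l, E l a = 0) → ∃ c : k, algebraMap k Ω c = a) {A Rw : Type*} [Fintype A]
    [Fintype Rw] (B : A → Set Ω) (X : Rw → A → Ω)
    (hsurj : ∀ u : A → (Fin n → Ω), ∃ t : Rw → (Fin n → Ω),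
      ∀ a, u a - ∑ l, X l a • t l ∈ TB E (B a)) {P : A → ℕ}
    {w : ∀ a, Fin (P a) → Ω} (hw : ∀ a, LinearIndependent k (w a)) (hB : ∀ a i, w a i ∈ B a) :
    ∏ a, P a ≤ (Module.finrank k (Submodule.span k (∏ a, Set.range (w a)))) ^ Fintype.card Rw := by
  classical
  have hinf : Infinite Ω := CharZero.infinite Ω
  choose g hgW hg using fun a =>
    LS_indep hcomm hconst (W := Set.range (w a)) (hw a) fun i => ⟨i, rfl⟩
  have hfin : (∏ a, Set.range (w a)).Finite := by
    have key : ∀ s : Finset A, (∏ a ∈ s, Set.range (w a)).Finite := by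
      intro s
      induction s using Finset.induction_on with
      | empty =>
        rw [Finset.prod_empty]
        exact Set.finite_one
      | insert a s ha ih =>
        rw [Finset.prod_insert ha]
        exact (Set.finite_range _).mul ih
    exact key Finset.univ
  let T : Submodule Ω (Fin n → Ω) := TB E ((⊥ : IntermediateField k Ω) : Set Ω)
  have hT : ∀ t : Fin n → Ω, t ∈ T := by
    rintro t _ ⟨c, rfl⟩
    refine Finset.sum_eq_zero fun l _ => ?_
    have h1 : E l ((Algebra.ofId k Ω).toRingHom c) = 0 := (E l).map_algebraMap c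
    exact (congrArg (fun z => t l * z) h1).trans (mul_zero _)
  have hfdB : FiniteDimensional (⊥ : IntermediateField k Ω)
      (Submodule.span (⊥ : IntermediateField k Ω) (∏ a, Set.range (w a))) :=
    FiniteDimensional.span_of_finite _ hfin
  let V : Submodule Ω (T → Ω) := (LS E (∏ a, Set.range (w a))).map (rs T)
  obtain ⟨hVfd, hVr⟩ := restr_rank hcomm (⊥ : IntermediateField k Ω) (W := ∏ a, Set.range (w a))
  have _ : FiniteDimensional Ω V := hVfd
  let Φ : (Rw → T) → A → (Fin n → Ω) := fun u a => ∑ l, X l a • (u l : Fin n → Ω)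
  let f : ∀ a, Fin (P a) → (Fin n → Ω) → Ω := fun a i x => eval x (g a i)
  have hf : ∀ a, LinearIndependent Ω (f a) := by
    intro a
    rw [Fintype.linearIndependent_iff]
    intro c hc
    refine Fintype.linearIndependent_iff.1 (hg a) c (MvPolynomial.funext fun x => ?_)
    have h1 := congrFun hc x
    rw [Finset.sum_apply] at h1
    rw [map_sum, map_zero]
    refine Eq.trans (Finset.sum_congr rfl fun i _ => ?_) h1
    rw [smul_eval]
    rfl
  let G : (∀ a, Fin (P a)) → (Rw → T) → Ω := fun j u => ∏ a, f a (j a) (Φ u a)
  have hGli : LinearIndependent Ω G := by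
    rw [Fintype.linearIndependent_iff]
    intro c hc
    refine Fintype.linearIndependent_iff.1 (prod_indep' hf) c (funext fun u => ?_)
    obtain ⟨t, ht⟩ := hsurj u
    have h1 := congrFun hc fun l => ⟨t l, hT _⟩
    rw [Finset.sum_apply] at h1 ⊢
    refine (Finset.sum_congr rfl fun j _ => ?_).trans h1
    show c j * ∏ a, f a (j a) (u a) = c j * ∏ a, f a (j a) (∑ l, X l a • t l)
    congr 1
    refine Finset.prod_congr rfl fun a _ => ?_
    refine LS_eval hcomm (B := B a) ?_ (hgW a (j a)) (ht a)
    rintro _ ⟨i, rfl⟩
    exact hB a i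
  have hupd : ∀ (u : Rw → T) (q : Rw) (t : T) (a : A), Φ (Function.update u q t) a =
      fun i => X q a * (t : Fin n → Ω) i + Φ (Function.update u q 0) a i := by
    intro u q t a
    have h1 : Φ (Function.update u q t) a = X q a • (t : Fin n → Ω) +
        Φ (Function.update u q 0) a := by
      show ∑ q', X q' a • (Function.update u q t q' : Fin n → Ω) = _ +
        ∑ q', X q' a • (Function.update u q 0 q' : Fin n → Ω)
      rw [← Finset.add_sum_erase _ _ (Finset.mem_univ q),
        ← Finset.add_sum_erase _ (fun q' => X q' a • (Function.update u q 0 q' : Fin n → Ω))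
          (Finset.mem_univ q)]
      simp only [Function.update_self]
      have h0 : X q a • ((0 : T) : Fin n → Ω) = 0 := smul_zero _
      rw [h0, zero_add]
      congr 1
      refine Finset.sum_congr rfl fun q' hq' => ?_
      rw [Function.update_of_ne (Finset.ne_of_mem_erase hq'),
        Function.update_of_ne (Finset.ne_of_mem_erase hq')]
    rw [h1]
    rfl
  have hmem : ∀ h ∈ Submodule.span Ω (Set.range G), ∀ (u : Rw → T) (q : Rw),
      (fun t => h (Function.update u q t)) ∈ V := by
    intro h hh u q
    induction hh using Submodule.span_induction with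
    | mem x hx =>
      obtain ⟨j, rfl⟩ := hx
      let g' : A → MvPolynomial (Fin n) Ω := fun a =>
        sc (X q a) (tr (Φ (Function.update u q 0) a) (g a (j a)))
      refine ⟨∏ a, g' a, LS_prod' Finset.univ fun a _ => LS_sc (LS_tr hcomm (hgW a _) _) _, ?_⟩
      funext t
      rw [rs_apply, map_prod]
      show _ = ∏ a, eval (Φ (Function.update u q t) a) (g a (j a))
      refine Finset.prod_congr rfl fun a _ => ?_
      rw [eval_sc, eval_tr, hupd u q t a]
    | zero => exact Submodule.zero_mem _
    | add x y _ _ hx hy => exact Submodule.add_mem _ hx hy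
    | smul c x _ hx => exact Submodule.smul_mem _ _ hx
  obtain ⟨h1, h2⟩ := grid (fun _ : Rw => V) (Submodule.span Ω (Set.range G)) hmem
  rw [finrank_span_eq_card hGli, Fintype.card_pi] at h2
  simp only [Fintype.card_fin] at h2
  rw [Finset.prod_const, Finset.card_univ] at h2
  exact h2.trans (Nat.pow_le_pow_left (hVr.trans (rank_bot hfin)) _)

end

end Pool.Agent.H891.RB
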