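import Pool.Agent.H891.RB.Sec
import Pool.Agent.H891.RB.Prod

/-! The reverse Brascamp-Lieb inequality for sections. -/

set_option autoImplicit false
set_option linter.overlappingInstances false
set_option linter.unusedSectionVars false

open FF IntermediateField Pool.Agent.W619.PQ Pool.Agent.W619.PL Pool.Agent.W619.TW
  Pool.Agent.W603.LV Pool.Agent.W619.Y Pool.Agent.Y174 Pool.Agent.Y173.QA Pool.Agent.W824.PG
  Pool.Agent.H891.RH Pool.Agent.H891.BL Pool.Agent.H891.TY
open scoped Matrix Pointwise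

namespace Pool.Agent.H891.RB

theorem prod_finite {A Ω : Type*} [Field Ω] (s : Finset A) {W : A → Set Ω}
    (hW : ∀ a, (W a).Finite) : (∏ a ∈ s, W a).Finite := by
  classical
  induction s using Finset.induction_on with
  | empty =>
    rw [Finset.prod_empty]
    exact Set.finite_one
  | insert a s ha ih =>
    rw [Finset.prod_insert ha]
    exact (hW a).mul ih

section

variable {k K L : Type} [Field k] [Field K] [Field L] [Algebra k K] [Algebra k L] [Algebra K L]
  [IsScalarTower k K L] [FiniteDimensional K L] [CharZero K]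

/-- traces detect independence -/
theorem trace_count {m M : ℕ} {U : Fin m → L} (hU : LinearIndependent k U)
    (b : Module.Basis (Fin (Module.finrank K L)) K L)
    (h : ∀ (i : Fin (Module.finrank K L)) (M' : ℕ) (l : Fin M' → Fin m),
      LinearIndependent k (fun j => Algebra.trace K L (b i * U (l j))) → M' ≤ M) :
    m ≤ Module.finrank K L * M := by
  classical
  let V : Fin (Module.finrank K L) → Submodule k K := fun i =>
    Submodule.span k (Set.range fun l => Algebra.trace K L (b i * U l))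
  have hfd : ∀ i, FiniteDimensional k (V i) := fun i =>
    FiniteDimensional.span_of_finite k (Set.finite_range _)
  have hV : ∀ i, Module.finrank k (V i) ≤ M := by
    intro i
    obtain ⟨f, hf, -, hli⟩ := Submodule.exists_fun_fin_finrank_span_eq k
      (Set.range fun l => Algebra.trace K L (b i * U l))
    choose l hl using hf
    refine h i _ l ?_
    have h1 : (fun j => Algebra.trace K L (b i * U (l j))) = f := funext hl
    rw [h1]
    exact hli
  let v : Fin m → (∀ i, V i) := fun l i =>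
    ⟨Algebra.trace K L (b i * U l), Submodule.subset_span ⟨l, rfl⟩⟩
  have hv : LinearIndependent k v := by
    rw [Fintype.linearIndependent_iff]
    intro c hc
    refine Fintype.linearIndependent_iff.1 hU c ?_
    by_contra h0
    have h1 : ∀ i, Algebra.trace K L (b i * ∑ l, c l • U l) = 0 := by
      intro i
      have h2 := congrArg Subtype.val (congrFun hc i)
      rw [Finset.sum_apply] at h2
      have h3 : ((∑ l, (c l • v l) i : V i) : K) = ∑ l, c l • Algebra.trace K L (b i * U l) := by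
        rw [Submodule.coe_sum]
        rfl
      rw [h3] at h2
      rw [Finset.mul_sum, map_sum]
      refine (Finset.sum_congr rfl fun l _ => ?_).trans h2
      rw [mul_smul_comm, ← algebraMap_smul K (c l) (b i * U l), map_smul, algebraMap_smul]
    have h2 : ∀ y : L, Algebra.trace K L (y * ∑ l, c l • U l) = 0 := by
      intro y
      rw [← b.sum_repr y, Finset.sum_mul, map_sum]
      refine Finset.sum_eq_zero fun i _ => ?_
      rw [smul_mul_assoc, map_smul, h1, smul_zero]
    have h3 := h2 (∑ l, c l • U l)⁻¹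
    rw [inv_mul_cancel₀ h0] at h3
    have h4 : Algebra.trace K L (1 : L) = (Module.finrank K L : K) := by
      have h5 := Algebra.trace_algebraMap (S := L) (1 : K)
      rw [map_one] at h5
      rw [h5, nsmul_eq_mul, mul_one]
    rw [h4] at h3
    have h5 : Module.finrank K L = 0 := by exact_mod_cast h3
    exact (Module.finrank_pos (R := K) (M := L)).ne' h5
  have h1 := hv.fintype_card_le_finrank
  rw [Fintype.card_fin, Module.finrank_pi_fintype] at h1
  refine h1.trans ?_
  refine (Finset.sum_le_sum fun i _ => hV i).trans (le_of_eq ?_)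
  rw [Finset.sum_const, Finset.card_univ, Fintype.card_fin, smul_eq_mul]

end

section

variable {k : Type} {K : Type} [Field k] [Field K] [Algebra k K] [CharZero k] {n : ℕ}
  {y₀ : Fin n → K}
  (hx : IsTranscendenceBasis k (algebraMap K (AlgebraicClosure K) ∘ y₀))
  {G : Fin n → Derivation k (AlgebraicClosure K) (AlgebraicClosure K)}
  (hG : ∀ i j, G i ((algebraMap K (AlgebraicClosure K) ∘ y₀) j) = if i = j then 1 else 0)
  {L : IntermediateField K (AlgebraicClosure K)} [FiniteDimensional K L] [IsGalois K L]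

open scoped Classical in
include hx hG in
/-- the tangent vectors of the images -/
theorem surj_of_det {r N D : ℕ} {Y : Fin r → IntermediateField k L}
    {B : Fin r → IntermediateField k (AlgebraicClosure K)} {y f c : Fin r → ℕ}
    (h : ∀ j, IsFibres L (Y j) (B j) n (y j) (f j)) {t : ∀ j, Fin (y j) → Y j}
    (ht : ∀ j, IsTranscendenceBasis k (t j)) (X : Fin N → Cps L c D → k)
    (e : Row L c y D ≃ Fin n × Fin N)
    (hdet : (Matrix.of fun ρ ρ' : Row L c y D => algebraMap k (AlgebraicClosure K) (X (e ρ').2 ρ.1) *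
      G (e ρ').1 ((ρ.1.1.2 (t ρ.1.1.1 ρ.2 : L) : L) : AlgebraicClosure K)).det ≠ 0)
    (u : Cps L c D → (Fin n → AlgebraicClosure K)) :
    ∃ s : Fin N → (Fin n → AlgebraicClosure K), ∀ a : Cps L c D,
      u a - ∑ l, algebraMap k (AlgebraicClosure K) (X l a) • s l ∈
        TB G (Vals L (Y a.1.1) a.1.2) := by
  set A := (Matrix.of fun ρ ρ' : Row L c y D => algebraMap k (AlgebraicClosure K)
    (X (e ρ').2 ρ.1) * G (e ρ').1 ((ρ.1.1.2 (t ρ.1.1.1 ρ.2 : L) : L) : AlgebraicClosure K)) with hA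
  have hsurj : Function.Surjective A.mulVec :=
    Matrix.mulVec_surjective_iff_isUnit.2 ((Matrix.isUnit_iff_isUnit_det _).2 (isUnit_iff_ne_zero.2 hdet))
  obtain ⟨τ, hτ⟩ := hsurj fun ρ => ∑ i, u ρ.1 i *
    G i ((ρ.1.1.2 (t ρ.1.1.1 ρ.2 : L) : L) : AlgebraicClosure K)
  refine ⟨fun b i => τ (e.symm (i, b)), fun a => ?_⟩
  rw [tb_eq_orth, ct_coord hx hG (h a.1.1) (ht a.1.1)]
  unfold CT
  rw [mem_orth_span]
  rintro _ ⟨_, ⟨l, rfl⟩, rfl⟩
  have h1 := congrFun hτ ⟨a, l⟩
  have h2 : (A *ᵥ τ) ⟨a, l⟩ = ∑ i, (∑ b, algebraMap k (AlgebraicClosure K) (X b a) *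
      τ (e.symm (i, b))) * G i ((a.1.2 (t a.1.1 l : L) : L) : AlgebraicClosure K) := by
    show ∑ ρ', A ⟨a, l⟩ ρ' * τ ρ' = _
    rw [← Equiv.sum_comp e.symm, Fintype.sum_prod_type]
    refine Finset.sum_congr rfl fun i _ => ?_
    rw [Finset.sum_mul]
    refine Finset.sum_congr rfl fun b _ => ?_
    show algebraMap k (AlgebraicClosure K) (X (e (e.symm (i, b))).2 a) *
      G (e (e.symm (i, b))).1 ((a.1.2 (t a.1.1 l : L) : L) : AlgebraicClosure K) *
        τ (e.symm (i, b)) = _
    rw [e.apply_symm_apply]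
    ring
  rw [h2] at h1
  have h3 : ∀ i, (u a - ∑ b, algebraMap k (AlgebraicClosure K) (X b a) •
      fun i => τ (e.symm (i, b))) i = u a i - ∑ b, algebraMap k (AlgebraicClosure K) (X b a) *
        τ (e.symm (i, b)) := by
    intro i
    rw [Pi.sub_apply, Finset.sum_apply]
    rfl
  simp only [h3, sub_mul, Finset.sum_sub_distrib]
  rw [h1]
  exact sub_self _

open scoped Classical in
include hx hG in
/-- **The products of the sections.** -/
theorem core [IsAlgClosed k] {r N D : ℕ}
    {Y : Fin r → IntermediateField k L}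
    {B : Fin r → IntermediateField k (AlgebraicClosure K)} {y f c : Fin r → ℕ}
    (h : ∀ j, IsFibres L (Y j) (B j) n (y j) (f j)) {t : ∀ j, Fin (y j) → Y j}
    (ht : ∀ j, IsTranscendenceBasis k (t j))
    {F : ∀ j, Fin (y j) → Derivation k (Y j) (Y j)}
    (hF : ∀ j l l', F j l (t j l') = if l = l' then 1 else 0) (X : Fin N → Cps L c D → k)
    (e : Row L c y D ≃ Fin n × Fin N)
    (hdet : (Matrix.of fun ρ ρ' : Row L c y D => algebraMap k (AlgebraicClosure K) (X (e ρ').2 ρ.1) *
      G (e ρ').1 ((ρ.1.1.2 (t ρ.1.1.1 ρ.2 : L) : L) : AlgebraicClosure K)).det ≠ 0)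
    {δY : ∀ j, Place k (Y j) → ℝ} {T b : ℕ} {S : ∀ j, Finset (Y j)} {P : Fin r → ℕ}
    {ω : ∀ j, Fin (P j) → (Fin (y j) → Derivation k (Y j) (Y j)) → Y j}
    (hω : ∀ j l, PairSec k (Y j) (y j) (δY j) (S j) T b (ω j l))
    (hli : ∀ j, LinearIndependent k (ω j)) {Θ : L} (hΘ : Θ ≠ 0) :
    ∃ (m : ℕ) (i : Fin m → ∀ a : Cps L c D, Fin (P a.1.1)),
      LinearIndependent k (fun l => Θ * ∏ a : Cps L c D, a.1.2 (ω a.1.1 (i l a) (F a.1.1) : L)) ∧
      ∏ a : Cps L c D, P a.1.1 ≤ m ^ N := by
  have hΩ0 : CharZero (AlgebraicClosure K) :=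
    charZero_of_injective_algebraMap (algebraMap k (AlgebraicClosure K)).injective
  have htow : IsScalarTower k L (AlgebraicClosure K) := IsScalarTower.of_algebraMap_eq fun x => by
    rw [IsScalarTower.algebraMap_apply k K L, IsScalarTower.algebraMap_apply k K
      (AlgebraicClosure K)]
    rfl
  let w : ∀ a : Cps L c D, Fin (P a.1.1) → AlgebraicClosure K := fun a i =>
    ((a.1.2 (ω a.1.1 i (F a.1.1) : L) : L) : AlgebraicClosure K)
  have hw : ∀ a, LinearIndependent k (w a) := by
    intro a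
    have hexp : ∀ Z : Derivation k (Y a.1.1) (Y a.1.1), ∃ c : Fin (y a.1.1) → Y a.1.1,
        Z = ∑ i, c i • F a.1.1 i := fun Z => ⟨_, der_expand (ht a.1.1) (hF a.1.1) Z⟩
    have h1 := lin_frame hexp (hli a.1.1) (fun l => (hω a.1.1 l).1) (one_ne_zero (α := Y a.1.1))
    simp only [one_mul] at h1
    let τ : (Y a.1.1) →ₐ[k] AlgebraicClosure K :=
      ((IsScalarTower.toAlgHom k L (AlgebraicClosure K)).comp
        ((a.1.2.restrictScalars k).toAlgHom)).comp (Y a.1.1).val
    exact h1.map' τ.toLinearMap (LinearMap.ker_eq_bot.2 τ.toRingHom.injective)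
  have h2 := rev_ineq (ders_comm hx hG) (fun a ha => ders_const hx hG ha)
    (fun a : Cps L c D => Vals L (Y a.1.1) a.1.2)
    (fun l a => algebraMap k (AlgebraicClosure K) (X l a))
    (surj_of_det hx hG h ht X e hdet) hw fun a i => ⟨_, (ω a.1.1 i (F a.1.1)).2, rfl⟩
  rw [Fintype.card_fin] at h2
  have hfd : FiniteDimensional k (Submodule.span k (∏ a : Cps L c D, Set.range (w a))) :=
    FiniteDimensional.span_of_finite k (prod_finite Finset.univ fun a => Set.finite_range _)
  obtain ⟨g, hg, -, hgi⟩ := Submodule.exists_fun_fin_finrank_span_eq k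
    (∏ a : Cps L c D, Set.range (w a))
  have h3 : ∀ l, ∃ i : ∀ a : Cps L c D, Fin (P a.1.1), ∏ a, w a (i a) = g l := by
    intro l
    obtain ⟨z, hz, hzg⟩ := (Set.mem_finsetProd (t := Finset.univ)
      (f := fun a => Set.range (w a)) (a := g l)).1 (hg l)
    choose i hi using fun a => hz (Finset.mem_univ a)
    refine ⟨i, ?_⟩
    rw [← hzg]
    exact Finset.prod_congr rfl fun a _ => hi a
  choose i hi using h3
  refine ⟨_, i, ?_, h2⟩
  rw [Fintype.linearIndependent_iff]
  intro a ha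
  refine Fintype.linearIndependent_iff.1 hgi a ?_
  have h4 : Θ * ∑ l, a l • ∏ b : Cps L c D, b.1.2 (ω b.1.1 (i l b) (F b.1.1) : L) = 0 := by
    rw [← ha, Finset.mul_sum]
    exact Finset.sum_congr rfl fun l _ => by rw [mul_smul_comm]
  have h5 := (mul_eq_zero.1 h4).resolve_left hΘ
  have h6 := congrArg (IsScalarTower.toAlgHom k L (AlgebraicClosure K)) h5
  rw [map_sum, map_zero] at h6
  rw [← h6]
  refine Finset.sum_congr rfl fun l _ => ?_
  rw [Algebra.smul_def, Algebra.smul_def, map_mul, AlgHom.commutes, map_prod, ← hi l]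
  rfl

end

section

variable {k : Type} {K : Type} [Field k] [Field K] [Algebra k K] [CharZero k] {n : ℕ}
  {L : IntermediateField K (AlgebraicClosure K)} [FiniteDimensional K L] [IsGalois K L]

open scoped Classical in
/-- the matrices with their two incarnations -/
theorem mats (hn : Algebra.trdeg k K = n) {r : ℕ} {Y : Fin r → IntermediateField k L}
    {B : Fin r → IntermediateField k (AlgebraicClosure K)} {y f c : Fin r → ℕ}
    (h : ∀ j, IsFibres L (Y j) (B j) n (y j) (f j)) {d d' : ℕ} (hd' : 1 ≤ d')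
    (hdd : d + d' = ∑ j, c j) (hBL : BLDist n B f c d) (hs : ∑ j, c j * f j = d * n)
    {x₁ : Fin n → K} (hx₁ : IsTranscendenceBasis k x₁)
    {G₁ : Fin n → Derivation k (AlgebraicClosure K) (AlgebraicClosure K)}
    (hG₁ : ∀ i j, G₁ i ((algebraMap K (AlgebraicClosure K) ∘ x₁) j) = if i = j then 1 else 0)
    {E₁ : Fin n → Derivation k K K} (hE₁ : ∀ i j, E₁ i (x₁ j) = if i = j then 1 else 0)
    {H₁ : Fin n → Derivation k L L}
    (hH₁ : ∀ i (x : K), H₁ i (algebraMap K L x) = algebraMap K L (E₁ i x)) :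
    ∃ D : ℕ, 0 < D ∧ ∀ t : ∀ j, Fin (y j) → Y j, (∀ j, IsTranscendenceBasis k (t j)) →
      ∃ (X : Fin (d' * Nat.card (L ≃ₐ[K] L) * D) → Cps L c D → k)
        (e : Row L c y D ≃ Fin n × Fin (d' * Nat.card (L ≃ₐ[K] L) * D)),
        (Matrix.of fun ρ ρ' : Row L c y D => algebraMap k (AlgebraicClosure K) (X (e ρ').2 ρ.1) *
          G₁ (e ρ').1 ((ρ.1.1.2 (t ρ.1.1.1 ρ.2 : L) : L) : AlgebraicClosure K)).det ≠ 0 ∧
        (MM X e (fun q => t q.1) H₁).det ≠ 0 := by
  have hxΩ₁ : IsTranscendenceBasis k (algebraMap K (AlgebraicClosure K) ∘ x₁) :=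
    hx₁.algebraMap_comp
  obtain ⟨D, hD, hmat⟩ := exists_mat hxΩ₁ hG₁ hn h hd' hdd hBL hs
  refine ⟨D, hD, fun t ht => ?_⟩
  obtain ⟨X, e, hdet⟩ := hmat t ht
  have hGE : ∀ i (x : K), G₁ i (algebraMap K (AlgebraicClosure K) x) =
      algebraMap K (AlgebraicClosure K) (E₁ i x) := by
    intro i x
    have h1 := Pool.Agent.W73.PG.PULL.chain x₁ hx₁ E₁ hE₁ (G₁ i) x
    rw [h1, Finset.sum_eq_single i]
    · have h2 := hG₁ i i
      rw [if_pos rfl] at h2
      change G₁ i (algebraMap K (AlgebraicClosure K) (x₁ i)) = 1 at h2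
      rw [h2, one_mul]
    · intro j _ hj
      have h2 := hG₁ i j
      rw [if_neg (Ne.symm hj)] at h2
      change G₁ i (algebraMap K (AlgebraicClosure K) (x₁ j)) = 0 at h2
      rw [h2, zero_mul]
    · intro h
      exact (h (Finset.mem_univ _)).elim
  refine ⟨X, e, hdet, fun h0 => hdet ?_⟩
  have h1 : (Matrix.of fun ρ ρ' : Row L c y D => algebraMap k (AlgebraicClosure K)
      (X (e ρ').2 ρ.1) * G₁ (e ρ').1 ((ρ.1.1.2 (t ρ.1.1.1 ρ.2 : L) : L) : AlgebraicClosure K)) =
      (algebraMap L (AlgebraicClosure K)).mapMatrix (MM X e (fun q => t q.1) H₁) := by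
    refine Matrix.ext fun ρ ρ' => ?_
    show algebraMap k (AlgebraicClosure K) (X (e ρ').2 ρ.1) * G₁ (e ρ').1
      ((ρ.1.1.2 (t ρ.1.1.1 ρ.2 : L) : L) : AlgebraicClosure K) =
      algebraMap L (AlgebraicClosure K) (algebraMap k L (X (e ρ').2 ρ.1) *
        H₁ (e ρ').1 (ρ.1.1.2 (t ρ.1.1.1 ρ.2 : L)))
    rw [map_mul, ext_eq hn (hGE (e ρ').1) (hH₁ (e ρ').1)]
    rfl
  rw [h1, ← RingHom.map_det, h0, map_zero]

/-- forms with given values on a frame -/
theorem form_indep {y₀ : Fin n → K} {E : Fin n → Derivation k K K}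
    (hE : ∀ i j, E i (y₀ j) = if i = j then 1 else 0) {m M : ℕ} {u : Fin M → K}
    (hu : LinearIndependent k u) :
    LinearIndependent k fun (l : Fin M) (Z : Fin n → Derivation k K K) =>
      (Matrix.of fun a b => Z a (y₀ b)).det ^ m * u l := by
  rw [Fintype.linearIndependent_iff] at hu ⊢
  intro c hc
  refine hu c ?_
  have h1 := congrFun hc E
  rw [Finset.sum_apply] at h1
  have h3 : (Matrix.of fun a b => E a (y₀ b)) = 1 := by
    refine Matrix.ext fun a b => ?_
    rw [Matrix.of_apply, hE, Matrix.one_apply]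
  refine (Finset.sum_congr rfl fun l _ => ?_).trans h1
  show c l • u l = c l • ((Matrix.of fun a b => E a (y₀ b)).det ^ m * u l)
  rw [h3, Matrix.det_one, one_pow, one_mul]

/-- **The reverse Brascamp-Lieb inequality.** -/
theorem rb [IsAlgClosed k] (hess : Algebra.EssFiniteType k K) (hn : Algebra.trdeg k K = n) {r : ℕ}
    {Y : Fin r → IntermediateField k L} [∀ j, Algebra.EssFiniteType k (Y j)]
    {B : Fin r → IntermediateField k (AlgebraicClosure K)} {y f c : Fin r → ℕ}
    (h : ∀ j, IsFibres L (Y j) (B j) n (y j) (f j)) {d d' : ℕ} (hd' : 1 ≤ d')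
    (hdd : d + d' = ∑ j, c j) (hBL : BLDist n B f c d) (hs : ∑ j, c j * f j = d * n) :
    ∃ D : ℕ, 0 < D ∧
      (∀ S : ∀ j, Finset (Y j), ∃ S' : Finset K, ∀ (δ : Place k K → ℝ)
        (δY : ∀ j, Place k (Y j) → ℝ), RamBound n L δ Y δY c d' →
        ∀ (T b M : ℕ) (P : Fin r → ℕ),
        (∀ j, HasIndep k (Y j) (y j) (P j) (PairSec k (Y j) (y j) (δY j) (S j) T b)) →
        (∀ M', HasIndep k K n M'
          (PairSec k K n δ S' (T * (d' * Nat.card (L ≃ₐ[K] L) * D)) (b + 1)) → M' ≤ M) →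
        ∏ j, P j ^ (Nat.card (L ≃ₐ[K] L) * (D * c j)) ≤
          (Module.finrank K L * M) ^ (d' * Nat.card (L ≃ₐ[K] L) * D)) ∧
      (L = ⊥ → ∀ (δ : Place k K → ℝ) (δY : ∀ j, Place k (Y j) → ℝ), RamBound n L δ Y δY c d' →
        ∀ (T M : ℕ) (P : Fin r → ℕ),
        (∀ j, HasIndep k (Y j) (y j) (P j) (PairSec k (Y j) (y j) (δY j) {1} T 0)) →
        (∀ M', HasIndep k K n M' (PairSec k K n δ {1} (T * (d' * D)) 0) → M' ≤ M) →
        ∏ j, P j ^ (D * c j) ≤ M ^ (d' * D)) := by
  classical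
  have hK0 : CharZero K := charZero_of_injective_algebraMap (algebraMap k K).injective
  obtain ⟨x₁, hx₁⟩ := Pool.Agent.W636.PG.exists_basis k K n hn
  have hxΩ₁ : IsTranscendenceBasis k (algebraMap K (AlgebraicClosure K) ∘ x₁) :=
    hx₁.algebraMap_comp
  obtain ⟨G₁, hG₁⟩ := Pool.Agent.W636.PG.exists_duals k (AlgebraicClosure K) n _ hxΩ₁
  obtain ⟨E₁, hE₁⟩ := Pool.Agent.W636.PG.exists_duals k K n _ hx₁
  obtain ⟨H₁, hH₁⟩ := exists_exts (L := L) hn E₁
  choose t ht using fun j => Pool.Agent.W636.PG.exists_basis k (Y j) (y j) (h j).dim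
  choose F hF using fun j => Pool.Agent.W636.PG.exists_duals k (Y j) (y j) _ (ht j)
  obtain ⟨D, hD, hm⟩ := mats hn h hd' hdd hBL hs hx₁ hG₁ hE₁ hH₁
  obtain ⟨X, e, hdet, hMM⟩ := hm t ht
  have hprod : ∀ P : Fin r → ℕ, ∏ a : Cps L c D, P a.1.1 =
      ∏ j, P j ^ (Nat.card (L ≃ₐ[K] L) * (D * c j)) := by
    intro P
    rw [Fintype.prod_sigma, Fintype.prod_prod_type]
    refine Finset.prod_congr rfl fun j _ => ?_
    show ∏ _σ : (L ≃ₐ[K] L), ∏ _x : Fin (D * c j), P j = _
    rw [Finset.prod_const, Finset.prod_const, Finset.card_univ, Finset.card_univ,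
      Fintype.card_fin, ← pow_mul, ← Nat.card_eq_fintype_card, mul_comm]
  refine ⟨D, hD, fun S => ?_, fun hL δ δY hram T M P hP hM => ?_⟩
  · let S₁ : ∀ j, Finset (Y j) := fun j => insert 1 (S j)
    let b₁ := Module.finBasis K L
    let Z₁ : Set L := Set.range fun s : (∀ a : Cps L c D, S₁ a.1.1) =>
      ∏ a : Cps L c D, a.1.2 ((s a : Y a.1.1) : L)
    obtain ⟨S', -, hS'⟩ := exists_divisor (k := k) (K := K) (Set.range b₁ ∪ Z₁)
      ((Set.finite_range _).union (Set.finite_range _))
    refine ⟨S', fun δ δY hram T b M P hP hM => ?_⟩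
    choose ω hli hω using hP
    have hω' : ∀ j l, PairSec k (Y j) (y j) (δY j) (S₁ j) T b (ω j l) := by
      refine fun j l => ⟨(hω j l).1, fun v hv Z hZ => ?_⟩
      rcases (hω j l).2 v hv Z hZ with h0 | ⟨s, hs, hs0, h1⟩
      · exact Or.inl h0
      · exact Or.inr ⟨s, Finset.mem_insert_of_mem hs, hs0, h1⟩
    obtain ⟨m, i, hi, hle⟩ := core hxΩ₁ hG₁ h ht hF X e hdet hω' hli (pow_ne_zero T hMM)
    have hmM : m ≤ Module.finrank K L * M := by
      refine trace_count hi b₁ fun q M' l hl => hM M' ⟨_, form_indep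
        (m := T * (d' * Nat.card (L ≃ₐ[K] L) * D)) hE₁ hl, fun j => ?_⟩
      refine tr_sec hess hn (fun j => (h j).dim) hram rfl X e ht hF
        (fun j => Finset.mem_insert_self 1 (S j)) (fun a => hω' a.1.1 (i (l j) a)) hx₁ hE₁ hH₁
        (Or.inl rfl) fun w v a₀ hov => ?_
      obtain ⟨s, hs, hs0, hsv, h1⟩ := hS' w v a₀ hov
      refine ⟨s, hs, hs0, hsv, fun σ => h1 _ (Or.inl ⟨q, rfl⟩) σ, fun s' hs' σ => ?_⟩
      refine (h1 (∏ a : Cps L c D, a.1.2 (s' a : L)) (Or.inr ⟨fun a => ⟨s' a, (hs' a).1⟩, rfl⟩)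
        σ).resolve_left ?_
      rw [Finset.prod_eq_zero_iff]
      rintro ⟨a, -, ha⟩
      exact (hs' a).2 (Subtype.ext ((map_eq_zero_iff _ a.1.2.injective).1 ha))
    rw [← hprod]
    exact hle.trans (Nat.pow_le_pow_left hmM _)
  · have hfr : Module.finrank K L = 1 := by
      rw [hL]
      exact IntermediateField.finrank_bot
    have hcard : Nat.card (L ≃ₐ[K] L) = 1 := by
      rw [IsGalois.card_aut_eq_finrank, hfr]
    choose ω hli hω using hP
    obtain ⟨m, i, hi, hle⟩ := core hxΩ₁ hG₁ h ht hF X e hdet hω hli (pow_ne_zero T hMM)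
    have htr : ∀ x : L, algebraMap K L (Algebra.trace K L x) = x := by
      intro x
      obtain ⟨x', hx'⟩ : ∃ x' : K, algebraMap K L x' = x := by
        have h1 : (x : AlgebraicClosure K) ∈ (⊥ : IntermediateField K (AlgebraicClosure K)) := by
          rw [← hL]
          exact x.2
        obtain ⟨x', hx'⟩ := IntermediateField.mem_bot.1 h1
        exact ⟨x', Subtype.ext hx'⟩
      rw [← hx', Algebra.trace_algebraMap, hfr, one_smul]
    have hmM : m ≤ M := by
      refine hM m ⟨_, form_indep (m := T * (d' * D)) hE₁ (u := fun l => Algebra.trace K L (1 *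
        ((MM X e (fun q => t q.1) H₁).det ^ T *
          ∏ a : Cps L c D, a.1.2 (ω a.1.1 (i l a) (F a.1.1) : L)))) ?_, fun l => ?_⟩
      · rw [Fintype.linearIndependent_iff] at hi ⊢
        intro a ha
        refine hi a ?_
        have h2 := congrArg (algebraMap K L) ha
        rw [map_sum, map_zero] at h2
        rw [← h2]
        refine Finset.sum_congr rfl fun l _ => ?_
        rw [Algebra.smul_def (a l) (Algebra.trace K L _), map_mul, htr, one_mul, Algebra.smul_def,
          ← IsScalarTower.algebraMap_apply]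
      · have h1 := tr_sec (b := 0) hess hn (fun j => (h j).dim) hram rfl X e ht hF
          (fun j => Finset.mem_singleton_self (1 : Y j)) (fun a => hω a.1.1 (i l a)) hx₁ hE₁ hH₁
          (β := 1) (ε := 0) (Or.inr ⟨rfl, rfl⟩) (S' := {1}) fun w v a₀ hov => by
          refine ⟨1, Finset.mem_singleton_self _, one_ne_zero, v.ord_one.le, fun σ => Or.inr ?_,
            fun s' hs' σ => ?_⟩
          · rw [v.ord_one, map_one, w.ord_one, mul_zero]
          · have h2 : ∏ a : Cps L c D, a.1.2 (s' a : L) = 1 := by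
              refine Finset.prod_eq_one fun a _ => ?_
              rw [Finset.mem_singleton.1 (hs' a).1]
              exact map_one a.1.2
            rw [h2, v.ord_one, map_one, w.ord_one, mul_zero]
        have h2 : T * (d' * Nat.card (L ≃ₐ[K] L) * D) = T * (d' * D) := by
          rw [hcard, mul_one]
        rw [h2] at h1
        exact h1
    have h3 := hprod P
    rw [hcard] at h3
    simp only [one_mul] at h3
    rw [← h3]
    refine hle.trans ?_
    rw [hcard, mul_one]
    exact Nat.pow_le_pow_left hmM _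

end

end Pool.Agent.H891.RB
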