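import Pool.Agent.H891.RB.Loc

/-! The sections given by traces. -/

set_option autoImplicit false
set_option linter.overlappingInstances false
set_option linter.unusedSectionVars false

open FF IntermediateField Pool.Agent.W619.PQ Pool.Agent.W619.PL Pool.Agent.W619.TW
  Pool.Agent.W603.LV Pool.Agent.W619.Y Pool.Agent.Y174 Pool.Agent.W824.PG Pool.Agent.H891.RH
open scoped Matrix

namespace Pool.Agent.H891.RB

section

variable {k K L : Type} [Field k] [Field K] [Field L] [Algebra k K] [Algebra k L] [Algebra K L]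
  [IsScalarTower k K L] [FiniteDimensional K L]

/-- one of the terms of a sum has at most the order of the sum -/
theorem exists_term {w : Place k L} {ι : Type*} (s : Finset ι) {f : ι → L}
    (h : ∑ i ∈ s, f i ≠ 0) : ∃ i ∈ s, f i ≠ 0 ∧ w.ord (f i) ≤ w.ord (∑ i ∈ s, f i) := by
  by_contra hcon
  push Not at hcon
  have h1 : Ge w (w.ord (∑ i ∈ s, f i) + 1) (∑ i ∈ s, f i) := by
    refine Ge.sum _ _ fun i hi => ?_
    by_cases h0 : f i = 0
    · exact Or.inl h0
    · exact Or.inr (hcon i hi h0)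
  have h2 := h1.resolve_left h
  omega

/-- a bound for the poles of the conjugates of an element of a finite extension -/
theorem pole_bound {w : Place k L} {v : Place k K} {a₀ : ℕ} (hov : Over w v a₀) {p : Polynomial K}
    (hp : p.Monic) {x : L} (hx : Polynomial.aeval x p = 0) {b : ℤ} (hb : b ≤ 0)
    (hc : ∀ i, p.coeff i = 0 ∨ b ≤ v.ord (p.coeff i)) : x = 0 ∨ a₀ * b ≤ w.ord x := by
  by_contra hcon
  push Not at hcon
  obtain ⟨hx0, hlt⟩ := hcon
  have hd : 0 < p.natDegree := by
    rcases Nat.eq_zero_or_pos p.natDegree with h | h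
    · have h1 := Polynomial.eq_C_of_natDegree_eq_zero h
      have h2 : p.coeff 0 = 1 := by
        have h3 := hp.coeff_natDegree
        rwa [h] at h3
      rw [h1, h2, map_one, map_one] at hx
      exact (one_ne_zero hx).elim
    · exact h
  have hneg : w.ord x < 0 := by
    have h1 : (a₀ : ℤ) * b ≤ 0 := mul_nonpos_of_nonneg_of_nonpos (by positivity) hb
    omega
  rw [Polynomial.aeval_eq_sum_range, Finset.sum_range_succ, hp.coeff_natDegree, one_smul] at hx
  have h1 : x ^ p.natDegree = -∑ i ∈ Finset.range p.natDegree, p.coeff i • x ^ i := by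
    rw [eq_neg_iff_add_eq_zero, add_comm]
    exact hx
  have h2 : Ge w (p.natDegree * w.ord x + 1) (∑ i ∈ Finset.range p.natDegree, p.coeff i • x ^ i) := by
    refine Ge.sum _ _ fun i hi => ?_
    rcases hc i with h | h
    · left
      rw [h, zero_smul]
    · by_cases h0 : p.coeff i = 0
      · left
        rw [h0, zero_smul]
      right
      rw [Algebra.smul_def, w.ord_mul (by simpa using h0) (pow_ne_zero _ hx0), w.ord_pow, hov.2]
      have hi' := Finset.mem_range.1 hi
      have h3 : (a₀ : ℤ) * b ≤ a₀ * v.ord (p.coeff i) :=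
        mul_le_mul_of_nonneg_left h (by positivity)
      have h4 : (p.natDegree : ℤ) * w.ord x ≤ (i + 1) * w.ord x := by
        have h5 : (i : ℤ) + 1 ≤ p.natDegree := by exact_mod_cast hi'
        nlinarith
      have h6 : ((i : ℤ) + 1) * w.ord x = i * w.ord x + w.ord x := by ring
      omega
  rw [← neg_neg (∑ i ∈ Finset.range p.natDegree, p.coeff i • x ^ i), ← h1] at h2
  have h3 := h2.neg
  rw [neg_neg] at h3
  have h4 := h3.resolve_left (pow_ne_zero _ hx0)
  rw [w.ord_pow] at h4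
  omega

/-- **A divisor which bounds the poles of the conjugates of finitely many functions.** -/
theorem exists_divisor (Z : Set L) (hZ : Z.Finite) : ∃ S : Finset K, (1 : K) ∈ S ∧
    ∀ (w : Place k L) (v : Place k K) (a₀ : ℕ), Over w v a₀ → ∃ s ∈ S, s ≠ 0 ∧ v.ord s ≤ 0 ∧
      ∀ z ∈ Z, ∀ σ : L ≃ₐ[K] L, z = 0 ∨ (a₀ : ℤ) * v.ord s ≤ w.ord (σ z) := by
  classical
  have hf := hZ.fintype
  let S : Finset K := {1} ∪ Finset.univ.biUnion fun z : Z =>
    (Finset.range ((minpoly K (z : L)).natDegree + 1)).image fun i => (minpoly K (z : L)).coeff i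
  have h1S : (1 : K) ∈ S := Finset.mem_union_left _ (Finset.mem_singleton_self _)
  refine ⟨S, h1S, fun w v a₀ hov => ?_⟩
  obtain ⟨s, hs, hmin⟩ := Finset.exists_min_image (S.filter fun s => s ≠ 0) v.ord
    ⟨1, Finset.mem_filter.2 ⟨h1S, one_ne_zero⟩⟩
  obtain ⟨hsS, hs0⟩ := Finset.mem_filter.1 hs
  have hle : v.ord s ≤ 0 := by
    have h1 := hmin 1 (Finset.mem_filter.2 ⟨h1S, one_ne_zero⟩)
    rwa [v.ord_one] at h1
  refine ⟨s, hsS, hs0, hle, fun z hz σ => ?_⟩
  have h2 := pole_bound hov (minpoly.monic (Algebra.IsIntegral.isIntegral (R := K) z))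
    (x := σ z) (b := v.ord s) (by
      rw [Polynomial.aeval_algHom_apply, minpoly.aeval, map_zero]) hle fun i => by
      by_cases h0 : (minpoly K z).coeff i = 0
      · exact Or.inl h0
      right
      refine hmin _ (Finset.mem_filter.2 ⟨Finset.mem_union_right _ ?_, h0⟩)
      refine Finset.mem_biUnion.2 ⟨⟨z, hz⟩, Finset.mem_univ _, Finset.mem_image.2 ⟨i, ?_, rfl⟩⟩
      have h3 := Polynomial.le_natDegree_of_ne_zero h0
      exact Finset.mem_range.2 (Nat.lt_succ_of_le h3)
  rcases h2 with h2 | h2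
  · left
    exact (map_eq_zero_iff _ σ.injective).1 h2
  · exact Or.inr h2

end

section

variable {k K : Type} [Field k] [Field K] [Algebra k K] [CharZero k]
  {L : IntermediateField K (AlgebraicClosure K)} {r n N D : ℕ} {c y : Fin r → ℕ}
  {Y : Fin r → IntermediateField k L} [FiniteDimensional K L] [IsGalois K L]

open scoped Classical in
/-- **The section.** -/
theorem tr_sec (hess : Algebra.EssFiniteType k K) (hn : Algebra.trdeg k K = n)
    [∀ j, Algebra.EssFiniteType k (Y j)]
    (hy : ∀ j, Algebra.trdeg k (Y j) = y j) {δ : Place k K → ℝ} {δY : ∀ j, Place k (Y j) → ℝ}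
    {d' : ℕ} (hram : RamBound n L δ Y δY c d') (hN : N = d' * Nat.card (L ≃ₐ[K] L) * D)
    (X : Fin N → Cps L c D → k) (e : Row L c y D ≃ Fin n × Fin N)
    {t : ∀ j, Fin (y j) → Y j} (ht : ∀ j, IsTranscendenceBasis k (t j))
    {F : ∀ j, Fin (y j) → Derivation k (Y j) (Y j)}
    (hF : ∀ j l l', F j l (t j l') = if l = l' then 1 else 0) {T b : ℕ} {S : ∀ j, Finset (Y j)}
    (hS : ∀ j, (1 : Y j) ∈ S j)
    {η : ∀ a : Cps L c D, (Fin (y a.1.1) → Derivation k (Y a.1.1) (Y a.1.1)) → Y a.1.1}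
    (hη : ∀ a : Cps L c D, PairSec k (Y a.1.1) (y a.1.1) (δY a.1.1) (S a.1.1) T b (η a))
    {y₀ : Fin n → K} (hy₀ : IsTranscendenceBasis k y₀) {E : Fin n → Derivation k K K}
    (hE : ∀ i j, E i (y₀ j) = if i = j then 1 else 0) {H : Fin n → Derivation k L L}
    (hH : ∀ i (x : K), H i (algebraMap K L x) = algebraMap K L (E i x)) {β : L} {ε : ℕ}
    (hε : ε = 1 ∨ (ε = 0 ∧ β = 1)) {S' : Finset K}
    (hS' : ∀ (w : Place k L) (v : Place k K) (a₀ : ℕ), Over w v a₀ → ∃ s ∈ S', s ≠ 0 ∧
      v.ord s ≤ 0 ∧ (∀ σ : L ≃ₐ[K] L, β = 0 ∨ (a₀ : ℤ) * v.ord s ≤ w.ord (σ β)) ∧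
      ∀ s' : ∀ a : Cps L c D, Y a.1.1, (∀ a, s' a ∈ S a.1.1 ∧ s' a ≠ 0) →
        ∀ σ : L ≃ₐ[K] L, (a₀ : ℤ) * v.ord s ≤ w.ord (σ (∏ a : Cps L c D, a.1.2 (s' a : L)))) :
    PairSec k K n δ S' (T * N) (b + ε) (fun Z =>
      (Matrix.of fun a b => Z a (y₀ b)).det ^ (T * N) *
        Algebra.trace K L (β * ((MM X e (fun q => t q.1) H).det ^ T *
          ∏ a : Cps L c D, a.1.2 (η a (F a.1.1) : L)))) := by
  set Θ : L := (MM X e (fun q => t q.1) H).det ^ T *
    ∏ a : Cps L c D, a.1.2 (η a (F a.1.1) : L) with hΘ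
  refine ⟨fun A Z => ?_, fun v hv Z hZ => ?_⟩
  · have e : (Matrix.of fun a b => (∑ j, A a j • Z j) (y₀ b)) =
        A * Matrix.of fun a b => Z a (y₀ b) := by
      refine Matrix.ext fun a b => ?_
      rw [Matrix.of_apply, Matrix.mul_apply, Pool.Agent.W721.PG.EFF2.der_sum]
      rfl
    show (Matrix.of fun a b => (∑ j, A a j • Z j) (y₀ b)).det ^ _ * _ = _
    rw [e, Matrix.det_mul, mul_pow, mul_assoc]
  · -- the frame at the place
    obtain ⟨z₀, F₀, i0, hz₀, hF₀, hz, hzr, hpres⟩ := Pool.Agent.W619.Y.pFRAME k K n hn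
      (fun y hy => fin_adj hess y hy) v hv
    have hfr : (Matrix.of fun a b => Z a (y₀ b)) =
        (Matrix.of fun a b => Z a (z₀ b)) * Matrix.of fun a b => F₀ a (y₀ b) := by
      refine Matrix.ext fun a b => ?_
      rw [Matrix.of_apply, Matrix.mul_apply]
      have h1 := Pool.Agent.W73.PG.PULL.expand z₀ hz₀ F₀ hF₀ (Z a)
      conv_lhs => rw [← h1]
      rw [Pool.Agent.W721.PG.EFF2.der_sum]
      rfl
    set C : Matrix (Fin n) (Fin n) K := Matrix.of fun a b => F₀ a (y₀ b) with hC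
    obtain ⟨w, a₀, hov⟩ := exists_ext (L := L) v
    obtain ⟨s, hs, hs0, hsv, hsβ, hsS⟩ := hS' w v a₀ hov
    -- the value on the frame
    have key : C.det ^ (T * N) * Algebra.trace K L (β * Θ) = 0 ∨
        ((b + ε : ℕ) : ℝ) * v.ord s - ((T * N : ℕ) * δ v) ≤
          (v.ord (C.det ^ (T * N) * Algebra.trace K L (β * Θ)) : ℝ) := by
      by_cases h0 : C.det ^ (T * N) * Algebra.trace K L (β * Θ) = 0
      · exact Or.inl h0
      right
      let U : L := algebraMap K L C.det ^ (T * N) * Θ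
      have hU : algebraMap K L (C.det ^ (T * N) * Algebra.trace K L (β * Θ)) =
          ∑ σ : L ≃ₐ[K] L, σ (β * U) := by
        rw [map_mul, trace_eq_sum_automorphisms, map_pow, Finset.mul_sum]
        refine Finset.sum_congr rfl fun σ _ => ?_
        have h1 : β * U = algebraMap K L C.det ^ (T * N) * (β * Θ) := by
          show β * (algebraMap K L C.det ^ (T * N) * Θ) = _
          ring
        rw [h1, map_mul σ (algebraMap K L C.det ^ (T * N)) (β * Θ), map_pow σ, σ.commutes]
      have hsum0 : ∑ σ : L ≃ₐ[K] L, σ (β * U) ≠ 0 := by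
        rw [← hU]
        exact fun h => h0 ((map_eq_zero_iff _ (algebraMap K L).injective).1 h)
      obtain ⟨σ, -, hσ0, hσ⟩ := exists_term (w := w) Finset.univ hsum0
      rw [← hU, hov.2] at hσ
      have hβU : β * U ≠ 0 := fun h => hσ0 (by rw [h, map_zero])
      have hβ0 : β ≠ 0 := left_ne_zero_of_mul hβU
      have hU0 : U ≠ 0 := right_ne_zero_of_mul hβU
      -- `U` in terms of the frame
      obtain ⟨H', hH'⟩ := exists_exts (L := L) hn F₀
      have hHH : H' = fun i => ∑ b, ((algebraMap K L).mapMatrix C) i b • H b := by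
        funext i
        refine exts_unique hn (hH' i) fun x => ?_
        rw [Pool.Agent.W721.PG.EFF2.der_sum]
        have h1 := Pool.Agent.W73.PG.PULL.expand y₀ hy₀ E hE (F₀ i)
        have h2 : F₀ i x = ∑ b, F₀ i (y₀ b) * E b x := by
          conv_lhs => rw [← h1]
          rw [Pool.Agent.W721.PG.EFF2.der_sum]
        rw [h2, map_sum]
        refine Finset.sum_congr rfl fun b _ => ?_
        rw [hH, map_mul]
        rfl
      have hUH : U = (MM X e (fun q => t q.1) H').det ^ T *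
          ∏ a : Cps L c D, a.1.2 (η a (F a.1.1) : L) := by
        rw [hHH, det_frame, ← RingHom.map_det, mul_pow, ← pow_mul, mul_comm N T, mul_assoc]
      have hest := loc_est hn hy hram hN X e ht hF hS hη hv (over_comp hov σ) hF₀ hz hpres hH'
      rw [← hUH] at hest
      obtain ⟨s', hs', hest⟩ := hest.resolve_left hU0
      have h1 : ((w.comp (σ.restrictScalars k)).ord U) = w.ord (σ U) := rfl
      have h2 : ((w.comp (σ.restrictScalars k)).ord (∏ a : Cps L c D, a.1.2 (s' a : L))) =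
        w.ord (σ (∏ a : Cps L c D, a.1.2 (s' a : L))) := rfl
      rw [h1, h2] at hest
      have h3 : ((a₀ : ℤ) * v.ord s : ℝ) ≤ w.ord (σ (∏ a : Cps L c D, a.1.2 (s' a : L))) := by
        exact_mod_cast hsS s' hs' σ
      have h4 : (ε : ℝ) * ((a₀ : ℤ) * v.ord s : ℝ) ≤ w.ord (σ β) := by
        rcases hε with rfl | ⟨rfl, rfl⟩
        · rw [Nat.cast_one, one_mul]
          exact_mod_cast (hsβ σ).resolve_left hβ0
        · rw [map_one, w.ord_one]
          simp
      have h5 : w.ord (σ (β * U)) = w.ord (σ β) + w.ord (σ U) := by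
        rw [map_mul, w.ord_mul]
        · exact fun h => hβ0 ((map_eq_zero_iff _ σ.injective).1 h)
        · exact fun h => hU0 ((map_eq_zero_iff _ σ.injective).1 h)
      rw [h5] at hσ
      have h6 : ((w.ord (σ β) : ℝ) + w.ord (σ U)) ≤
          a₀ * v.ord (C.det ^ (T * N) * Algebra.trace K L (β * Θ)) := by
        exact_mod_cast hσ
      have ha : (0 : ℝ) < a₀ := by exact_mod_cast hov.1
      have h7 := mul_le_mul_of_nonneg_left h3 (Nat.cast_nonneg (α := ℝ) b)
      refine le_of_mul_le_mul_left ?_ ha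
      push_cast at h3 h4 h7 ⊢
      linarith
    have hval : (Matrix.of fun a b => Z a (y₀ b)).det ^ (T * N) *
        Algebra.trace K L (β * Θ) = (Matrix.of fun a b => Z a (z₀ b)).det ^ (T * N) *
          (C.det ^ (T * N) * Algebra.trace K L (β * Θ)) := by
      rw [hfr, Matrix.det_mul, mul_pow, mul_assoc]
    have hB : Ge v 0 ((Matrix.of fun a b => Z a (z₀ b)).det ^ (T * N)) := by
      have h1 := (ge_det v (Matrix.of fun a b => Z a (z₀ b)) fun a b => hZ a _ (hzr b)).pow
        (T * N)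
      rwa [mul_zero] at h1
    show (Matrix.of fun a b => Z a (y₀ b)).det ^ (T * N) * Algebra.trace K L (β * Θ) = 0 ∨
      ∃ s ∈ _, _
    by_cases h0 : (Matrix.of fun a b => Z a (y₀ b)).det ^ (T * N) * Algebra.trace K L (β * Θ) = 0
    · exact Or.inl h0
    right
    refine ⟨s, hs, hs0, ?_⟩
    rw [hval] at h0
    have h1 := left_ne_zero_of_mul h0
    have h2 := right_ne_zero_of_mul h0
    show ((b + ε : ℕ) : ℝ) * v.ord s - _ ≤ (v.ord ((Matrix.of fun a b => Z a (y₀ b)).det ^ (T * N) *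
      Algebra.trace K L (β * Θ)) : ℝ)
    rw [hval, v.ord_mul h1 h2]
    push_cast
    have h3 := key.resolve_left h2
    have h4 : (0 : ℝ) ≤ (v.ord ((Matrix.of fun a b => Z a (z₀ b)).det ^ (T * N)) : ℝ) := by
      exact_mod_cast hB.resolve_left h1
    push_cast at h3
    linarith

end

end Pool.Agent.H891.RB
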